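import Pool.Agent.H982Z.Sym.Names

/-!
# Forcing of formulas over the hereditarily symmetric names; comprehension
-/

set_option autoImplicit false

namespace Pool.Agent.H982Z.Sym

open Pool.Agent.H164Z.Bspt

variable {P : Type} [Preorder P]
variable {Γ : Type} [Group Γ] [MulAction Γ P] [CovariantClass Γ P (· • ·) (· ≤ ·)]
variable (F : NF Γ)

/-- The forcing relation. -/
def Force : Fml → (ℕ → Nm P) → P → Prop
  | .mem i j, v, p => fmem (v i) (v j) p
  | .eq i j, v, p => feq (v i) (v j) p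
  | .neg φ, v, p => ∀ q ≤ p, ¬ Force φ v q
  | .and φ ψ, v, p => Force φ v p ∧ Force ψ v p
  | .all φ, v, p => ∀ x, HS F x → Force φ (cons x v) p

/-- A bound for the variables of a formula. -/
def bd : Fml → ℕ
  | .mem i j => max i j + 1
  | .eq i j => max i j + 1
  | .neg φ => bd φ
  | .and φ ψ => max (bd φ) (bd ψ)
  | .all φ => bd φ

variable {F}

theorem Force.mono {φ : Fml} : ∀ {v : ℕ → Nm P} {p q : P}, Force F φ v p → q ≤ p →
    Force F φ v q := by
  induction φ with
  | mem i j => exact fun h hq => fmem.mono h hq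
  | eq i j => exact fun h hq => feq.mono h hq
  | neg φ ih => exact fun h hq r hr => h r (hr.trans hq)
  | and φ ψ ih ih' => exact fun h hq => ⟨ih h.1 hq, ih' h.2 hq⟩
  | all φ ih => exact fun h hq x hx => ih (h x hx) hq

theorem force_of_dn {φ : Fml} : ∀ {v : ℕ → Nm P} {p : P}, Dn (Force F φ v) p →
    Force F φ v p := by
  induction φ with
  | mem i j => exact fun h => fmem_of_dn h
  | eq i j => exact fun h => feq_of_dn h
  | neg φ ih =>
    intro v p h q hq h1
    obtain ⟨r, hr, h2⟩ := h q hq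
    exact h2 r le_rfl (h1.mono hr)
  | and φ ψ ih ih' =>
    exact fun h => ⟨ih (h.imp' fun _ _ h1 => h1.1), ih' (h.imp' fun _ _ h1 => h1.2)⟩
  | all φ ih => exact fun h x hx => ih (h.imp' fun _ _ h1 => h1 x hx)

theorem exists_force_neg {φ : Fml} {v : ℕ → Nm P} {p : P} (h : ¬ Force F φ v p) :
    ∃ q ≤ p, Force F (.neg φ) v q := by
  by_contra h1
  refine h (force_of_dn fun q hq => ?_)
  by_contra h2
  exact h1 ⟨q, hq, fun r hr h3 => h2 ⟨r, hr, h3⟩⟩

theorem force_congr {φ : Fml} : ∀ {v w : ℕ → Nm P} {p : P},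
    (∀ i < bd φ, feq (v i) (w i) p) → Force F φ v p → Force F φ w p := by
  induction φ with
  | mem i j =>
    intro v w p h h1
    exact (fmem.left h1 (h i (by simp only [bd]; omega))).right (h j (by simp only [bd]; omega))
  | eq i j =>
    intro v w p h h1
    exact (h i (by simp only [bd]; omega)).symm.trans
      (feq.trans h1 (h j (by simp only [bd]; omega)))
  | neg φ ih =>
    intro v w p h h1 q hq h2
    exact h1 q hq (ih (fun i hi => ((h i hi).mono hq).symm) h2)
  | and φ ψ ih ih' =>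
    intro v w p h h1
    exact ⟨ih (fun i hi => h i (by simp only [bd]; omega)) h1.1,
      ih' (fun i hi => h i (by simp only [bd]; omega)) h1.2⟩
  | all φ ih =>
    intro v w p h h1 x hx
    refine ih (fun i hi => ?_) (h1 x hx)
    cases i with
    | zero => exact feq.refl _ _
    | succ i => exact h i (by simp only [bd]; omega)

theorem force_cons_congr {φ : Fml} {v : ℕ → Nm P} {x y : Nm P} {p : P} (h : feq x y p)
    (h1 : Force F φ (cons x v) p) : Force F φ (cons y v) p := by
  refine force_congr (fun i _ => ?_) h1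
  cases i with
  | zero => exact h
  | succ i => exact feq.refl _ _

theorem force_ren (φ : Fml) : ∀ (f : ℕ → ℕ) (v : ℕ → Nm P) (p : P),
    Force F (φ.ren f) v p ↔ Force F φ (fun i => v (f i)) p := by
  induction φ with
  | mem i j => intro f v p; rfl
  | eq i j => intro f v p; rfl
  | neg φ ih => intro f v p; simp only [Fml.ren, Force, ih]
  | and φ ψ ih ih' => intro f v p; simp only [Fml.ren, Force, ih, ih']
  | all φ ih =>
    intro f v p
    simp only [Fml.ren, Force, ih]
    refine forall_congr' fun x => ?_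
    have : (fun i => cons x v (liftR f i)) = cons x (fun i => v (f i)) := by
      funext i; cases i <;> rfl
    rw [this]

theorem act_cons (π : Γ) (x : Nm P) (v : ℕ → Nm P) :
    (fun i => act π (cons x v i)) = cons (act π x) (fun i => act π (v i)) := by
  funext i; cases i <;> rfl

theorem force_act_iff (π : Γ) (φ : Fml) : ∀ (v : ℕ → Nm P) (p : P),
    Force F φ (fun i => act π (v i)) (π • p) ↔ Force F φ v p := by
  induction φ with
  | mem i j => intro v p; exact fmem_act_iff π
  | eq i j => intro v p; exact feq_act_iff π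
  | neg φ ih =>
    intro v p
    constructor
    · intro h q hq h1
      exact h (π • q) (sm_le π hq) ((ih v q).2 h1)
    · intro h q hq h1
      refine h (π⁻¹ • q) ((le_sm π).1 hq) ((ih v _).1 ?_)
      rwa [smul_inv_smul]
  | and φ ψ ih ih' => intro v p; exact and_congr (ih v p) (ih' v p)
  | all φ ih =>
    intro v p
    constructor
    · intro h x hx
      refine (ih (cons x v) p).1 ?_
      rw [act_cons]
      exact h _ (hx.act π)
    · intro h x hx
      have := (ih (cons (act π⁻¹ x) v) p).2 (h _ (hx.act π⁻¹))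
      rwa [act_cons, act_act_inv] at this

/-! ### Derived connectives -/

/-- disjunction -/
def fOr (φ ψ : Fml) : Fml := .neg (.and (.neg φ) (.neg ψ))

/-- implication -/
def fImp (φ ψ : Fml) : Fml := .neg (.and φ (.neg ψ))

/-- equivalence -/
def fIff (φ ψ : Fml) : Fml := .and (fImp φ ψ) (fImp ψ φ)

/-- existential quantifier -/
def fEx (φ : Fml) : Fml := .neg (.all (.neg φ))

section
variable {M : Type} (E : M → M → Prop) (φ ψ : Fml) (v : ℕ → M)

theorem sat_or : Sat E (fOr φ ψ) v ↔ Sat E φ v ∨ Sat E ψ v := by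
  simp only [fOr, Sat]; tauto

theorem sat_imp : Sat E (fImp φ ψ) v ↔ (Sat E φ v → Sat E ψ v) := by
  simp only [fImp, Sat]; tauto

theorem sat_iff : Sat E (fIff φ ψ) v ↔ (Sat E φ v ↔ Sat E ψ v) := by
  simp only [fIff, Sat, sat_imp]; tauto

theorem sat_ex : Sat E (fEx φ) v ↔ ∃ x, Sat E φ (cons x v) := by
  simp only [fEx, Sat, not_forall_not]

end

theorem force_or {φ ψ : Fml} {v : ℕ → Nm P} {p : P} :
    Force F (fOr φ ψ) v p ↔ Dn (fun r => Force F φ v r ∨ Force F ψ v r) p := by
  constructor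
  · intro h q hq
    by_contra h1
    refine h q hq ⟨fun r hr h2 => h1 ⟨r, hr, Or.inl h2⟩, fun r hr h2 => h1 ⟨r, hr, Or.inr h2⟩⟩
  · intro h q hq h1
    obtain ⟨r, hr, h2 | h2⟩ := h q hq
    · exact h1.1 r hr h2
    · exact h1.2 r hr h2

theorem force_imp {φ ψ : Fml} {v : ℕ → Nm P} {p : P} :
    Force F (fImp φ ψ) v p ↔ ∀ q ≤ p, Force F φ v q → Force F ψ v q := by
  constructor
  · intro h q hq h1
    by_contra h2
    obtain ⟨r, hr, h3⟩ := exists_force_neg h2
    exact h r (hr.trans hq) ⟨h1.mono hr, h3⟩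
  · intro h q hq h1
    exact h1.2 q le_rfl (h q hq h1.1)

theorem force_iff {φ ψ : Fml} {v : ℕ → Nm P} {p : P} :
    Force F (fIff φ ψ) v p ↔ ∀ q ≤ p, (Force F φ v q ↔ Force F ψ v q) := by
  change Force F (fImp φ ψ) v p ∧ Force F (fImp ψ φ) v p ↔ _
  rw [force_imp, force_imp]
  exact ⟨fun h q hq => ⟨h.1 q hq, h.2 q hq⟩, fun h => ⟨fun q hq => (h q hq).1,
    fun q hq => (h q hq).2⟩⟩

theorem force_ex {φ : Fml} {v : ℕ → Nm P} {p : P} :
    Force F (fEx φ) v p ↔ Dn (fun r => ∃ x, HS F x ∧ Force F φ (cons x v) r) p := by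
  constructor
  · intro h q hq
    by_contra h1
    exact h q hq fun x hx r hr h2 => h1 ⟨r, hr, x, hx, h2⟩
  · intro h q hq h1
    obtain ⟨r, hr, x, hx, h2⟩ := h q hq
    exact h1 x hx r hr h2

/-! ### Comprehension -/

variable (F) in
/-- The name for the set of those `A i` that satisfy `ψ`. -/
def cmp (ψ : Fml) (v : ℕ → Nm P) (ι : Type) (A : ι → Nm P) : Nm P :=
  ⟨ι, A, fun i => ⟨{q | Force F ψ (cons (A i) v) q}, fun _ _ h h' => Force.mono h' h⟩⟩

variable (F) in
/-- The family `A` covers the class defined by `ψ`. -/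
def Covers (ψ : Fml) (v : ℕ → Nm P) {ι : Type} (A : ι → Nm P) : Prop :=
  ∀ z, HS F z → ∀ p, Force F ψ (cons z v) p → Dn (fun r => ∃ i, feq z (A i) r) p

theorem fmem_cmp {ψ : Fml} {v : ℕ → Nm P} {ι : Type} {A : ι → Nm P} (h : Covers F ψ v A)
    {z : Nm P} (hz : HS F z) (p : P) : fmem z (cmp F ψ v ι A) p ↔ Force F ψ (cons z v) p := by
  constructor
  · intro h1
    exact force_of_dn (Dn.imp' h1 fun r _ ⟨i, h2, h3⟩ => force_cons_congr (feq.symm h3) h2)
  · intro h1
    exact Dn.imp' (h z hz p h1) fun r hr ⟨i, h2⟩ => ⟨i, force_cons_congr h2 (h1.mono hr), h2⟩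

theorem hs_cmp {ψ : Fml} {v : ℕ → Nm P} {ι : Type} {A : ι → Nm P} (h : Covers F ψ v A)
    (hA : ∀ i, HS F (A i)) (hv : ∀ i, HS F (v i)) : HS F (cmp F ψ v ι A) := by
  refine ⟨?_, hA⟩
  obtain ⟨H, hH, h1⟩ := exists_fixes (n := bd ψ) hv
  have key : ∀ π ∈ H, ∀ z q, Force F ψ (cons z v) q → Force F ψ (cons (act π z) v) (π • q) := by
    intro π hπ z q h2
    have h3 := (force_act_iff π ψ _ q).2 h2
    rw [act_cons] at h3
    refine force_congr (fun i hi => ?_) h3
    cases i with
    | zero => exact feq.refl _ _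
    | succ i => exact h1 i (by omega) π hπ _
  refine ⟨H, hH, fun π hπ p => feq_of_mem (fun i q _ hi => ?_) (fun i q _ hi => ?_)⟩
  · have h2 := key π hπ _ _ (hi : Force F ψ (cons (A i) v) (π⁻¹ • q))
    rw [smul_inv_smul] at h2
    exact (fmem_cmp h ((hA i).act π) q).2 h2
  · have h2 := key π⁻¹ (H.inv_mem hπ) _ _ (hi : Force F ψ (cons (A i) v) q)
    have h3 := ((fmem_cmp h ((hA i).act π⁻¹) _).2 h2).act π
    rwa [act_act_inv, smul_inv_smul] at h3

/-- A class with a small covering family of names is forced to be a set. -/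
theorem force_set {ψ : Fml} {v : ℕ → Nm P} {ι : Type} {A : ι → Nm P} (h : Covers F ψ v A)
    (hA : ∀ i, HS F (A i)) (hv : ∀ i, HS F (v i)) (p : P) :
    Force F (fEx (.all (fIff (.mem 0 1) (ψ.ren (liftR Nat.succ))))) v p := by
  refine force_ex.2 (Dn.of fun q _ => ⟨_, hs_cmp h hA hv, fun z hz => force_iff.2 fun r _ => ?_⟩)
  rw [force_ren]
  have : (fun i => cons z (cons (cmp F ψ v ι A) v) (liftR Nat.succ i)) = cons z v := by
    funext i; cases i <;> rfl
  rw [this]
  exact fmem_cmp h hz r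

/-! ### Covering families -/

theorem covers_pair (v : ℕ → Nm P) (i j : ℕ) :
    Covers F (fOr (.eq 0 (i + 1)) (.eq 0 (j + 1))) v (fun b : Bool => if b then v i else v j) := by
  intro z _ p h
  refine (force_or.1 h).imp' fun r _ h1 => ?_
  rcases h1 with h1 | h1
  · exact ⟨true, h1⟩
  · exact ⟨false, h1⟩

theorem covers_union (v : ℕ → Nm P) (i : ℕ) :
    Covers F (fEx (.and (.mem 0 (i + 2)) (.mem 1 0))) v
      (fun a : Σ j : (v i).ι, ((v i).A j).ι => ((v i).A a.1).A a.2) := by
  intro z _ p h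
  refine (force_ex.1 h).imp fun r _ ⟨y, _, h1, h2⟩ => ?_
  refine Dn.imp (show fmem y (v i) r from h1) fun s hs ⟨j, _, h3⟩ => ?_
  have h4 : fmem z ((v i).A j) s := (fmem.mono (show fmem z y r from h2) hs).right h3
  exact Dn.imp' h4 fun t _ ⟨k, _, h5⟩ => ⟨⟨j, k⟩, h5⟩

theorem covers_sep (φ : Fml) (v : ℕ → Nm P) (i : ℕ) :
    Covers F (.and (.mem 0 (i + 1)) φ) v (v i).A := by
  intro z _ p h
  exact Dn.imp' (show fmem z (v i) p from h.1) fun t _ ⟨k, _, h5⟩ => ⟨k, h5⟩

theorem covers_power (v : ℕ → Nm P) (hv : ∀ i, HS F (v i)) (i : ℕ) :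
    Covers F (.all (fImp (.mem 0 1) (.mem 0 (i + 2)))) v
      (fun a : {c : (v i).ι → LowerSet P // HS F ⟨(v i).ι, (v i).A, c⟩} =>
        (⟨(v i).ι, (v i).A, a.1⟩ : Nm P)) := by
  intro z hz p h
  have hc : Covers F (.and (.mem 0 (i + 1 + 1)) (.mem 0 1)) (cons z v) (v i).A :=
    covers_sep (.mem 0 1) (cons z v) (i + 1)
  have hv' : ∀ k, HS F (cons z v k) := fun k => by
    cases k with
    | zero => exact hz
    | succ k => exact hv k
  have h1 := hs_cmp hc (fun j => (hv i).child j) hv'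
  refine Dn.of fun q hq => ⟨⟨_, h1⟩, feq_of_mem (fun j r hr hj => ?_) (fun j r _ hj => ?_)⟩
  · refine (fmem_cmp hc (hz.child j) r).2 ⟨?_, fmem_child z j hj⟩
    exact force_imp.1 (h _ (hz.child j)) r (hr.trans hq) (fmem_child z j hj)
  · exact hj.2

/-- The formula: some `x` in `v i` has `φ (y, x)`, and `y` is unique. -/
def fRepl (φ : Fml) (i : ℕ) : Fml :=
  fEx (.and (.mem 0 (i + 2)) (.and (φ.ren fun k => match k with
      | 0 => 1
      | 1 => 0
      | k + 2 => k + 2)
    (.all (fImp (φ.ren fun k => match k with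
      | 0 => 0
      | 1 => 1
      | k + 2 => k + 3) (.eq 0 2)))))

theorem sat_fRepl {M : Type} (E : M → M → Prop) (φ : Fml) (i : ℕ) (y : M) (v : ℕ → M) :
    Sat E (fRepl φ i) (cons y v) ↔ ∃ x, E x (v i) ∧ Sat E φ (cons y (cons x v)) ∧
      ∀ y', Sat E φ (cons y' (cons x v)) → y' = y := by
  simp only [fRepl, sat_ex, Sat, sat_imp, sat_ren]
  refine exists_congr fun x => and_congr Iff.rfl (and_congr ?_ (forall_congr' fun y' => ?_))
  · congr! 1
    funext k
    match k with
    | 0 => rfl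
    | 1 => rfl
    | k + 2 => rfl
  · refine imp_congr ?_ Iff.rfl
    congr! 1
    funext k
    match k with
    | 0 => rfl
    | 1 => rfl
    | k + 2 => rfl

theorem exists_covers_repl (φ : Fml) (v : ℕ → Nm P) (i : ℕ) :
    ∃ (ι : Type) (A : ι → Nm P), (∀ j, HS F (A j)) ∧ Covers F (fRepl φ i) v A := by
  let ι : Type := {a : (v i).ι × P // ∃ y, HS F y ∧ Force F φ (cons y (cons ((v i).A a.1) v)) a.2}
  refine ⟨ι, fun a => a.2.choose, fun a => a.2.choose_spec.1, fun z hz p h => ?_⟩
  refine (force_ex.1 h).imp fun r _ ⟨x, _, h1, h2, h3⟩ => ?_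
  refine Dn.imp' (show fmem x (v i) r from h1) fun s hs ⟨j, _, h4⟩ => ?_
  rw [force_ren] at h2
  have e1 : (fun k => cons x (cons z v) (match k with
      | 0 => 1
      | 1 => 0
      | k + 2 => k + 2)) = cons z (cons x v) := by
    funext k
    match k with
    | 0 => rfl
    | 1 => rfl
    | k + 2 => rfl
  rw [e1] at h2
  have hcong : ∀ (y a b : Nm P), feq a b s → Force F φ (cons y (cons a v)) s →
      Force F φ (cons y (cons b v)) s := fun y a b hab h5 => by
    refine force_congr (fun k _ => ?_) h5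
    match k with
    | 0 => exact feq.refl _ _
    | 1 => exact hab
    | k + 2 => exact feq.refl _ _
  have h5 : ∃ y, HS F y ∧ Force F φ (cons y (cons ((v i).A j) v)) s :=
    ⟨z, hz, hcong _ _ _ h4 (h2.mono hs)⟩
  refine ⟨⟨(j, s), h5⟩, ?_⟩
  have h6 := h5.choose_spec
  have h7 := force_imp.1 (h3 _ h6.1) s hs (by
    rw [force_ren]
    have e2 : (fun k => cons h5.choose (cons x (cons z v)) (match k with
        | 0 => 0
        | 1 => 1
        | k + 2 => k + 3)) = cons h5.choose (cons x v) := by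
      funext k
      match k with
      | 0 => rfl
      | 1 => rfl
      | k + 2 => rfl
    rw [e2]
    exact hcong _ _ _ h4.symm h6.2)
  exact feq.symm h7

end Pool.Agent.H982Z.Sym
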