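import Pool.Agent.H982Z.Sym.Model

/-!
# Transfer of permutation models with finite supports

For a group `H` of permutations of a set `A` of atoms and a countable family `T` of hereditarily
finitely supported objects there is a countable model of ZF with a copy of `T`, in which every set
is finitely supported.
-/

set_option autoImplicit false

namespace Pool.Agent.H982Z.Sym

open Pool.Agent.H164Z.Bspt

section nat
variable {P : Type} [Preorder P]

theorem not_fmem_self (x : Nm P) : ∀ p, ¬ fmem x x p := by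
  induction x with
  | mk ι A c ih =>
    intro p h
    obtain ⟨r, hr, j, -, h1⟩ := h p le_rfl
    exact ih j r (((h.mono hr).left h1).right h1)

theorem fmem_natN {k m : ℕ} (h : k < m) (p : P) : fmem (natN k) (natN m) p := by
  induction m with
  | zero => exact absurd h (Nat.not_lt_zero k)
  | succ m ih =>
    refine (fmem_natN_succ m _ p).2 (Dn.of fun q hq => ?_)
    rcases Nat.lt_succ_iff_lt_or_eq.1 h with h1 | rfl
    · exact Or.inl ((ih h1).mono hq)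
    · exact Or.inr (feq.refl _ _)

theorem natN_inj {k m : ℕ} {p : P} (h : feq (natN k) (natN m) p) : k = m := by
  rcases lt_trichotomy k m with h1 | h1 | h1
  · exact absurd ((fmem_natN h1 p).right h.symm) (not_fmem_self _ p)
  · exact h1
  · exact absurd ((fmem_natN h1 p).right h) (not_fmem_self _ p)

end nat

theorem p_ai {α : Type} (f : Equiv.Perm α) (x : α) : f (f⁻¹ x) = x := f.apply_symm_apply x

theorem p_ia {α : Type} (f : Equiv.Perm α) (x : α) : f⁻¹ (f x) = x := f.symm_apply_apply x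

variable {A : Type}

/-- Finite partial functions. -/
def PP (A : Type) : Type := {f : (A × ℕ) × ℕ → Option Bool // {i | f i ≠ none}.Finite}

instance : Preorder (PP A) where
  le p q := ∀ i b, q.1 i = some b → p.1 i = some b
  le_refl _ _ _ h := h
  le_trans _ _ _ h h' i b h1 := h i b (h' i b h1)

theorem PP.le_def {p q : PP A} : p ≤ q ↔ ∀ i b, q.1 i = some b → p.1 i = some b := Iff.rfl

/-- The trivial condition. -/
def PP.top : PP A := ⟨fun _ => none, by simp⟩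

theorem PP.bound (p : PP A) : ∃ N, ∀ i, p.1 i ≠ none → i.1.2 < N ∧ i.2 < N := by
  obtain ⟨N, hN⟩ := (p.2.image fun i => i.1.2 + i.2).bddAbove
  refine ⟨N + 1, fun i hi => ?_⟩
  have := hN ⟨i, hi, rfl⟩
  simp only at this
  omega

theorem PP.common {p q : PP A} (h : ∀ i b b', p.1 i = some b → q.1 i = some b' → b = b') :
    ∃ r, r ≤ p ∧ r ≤ q := by
  refine ⟨⟨fun i => (p.1 i).orElse fun _ => q.1 i, (p.2.union q.2).subset fun i hi => ?_⟩,
    fun i b hb => ?_, fun i b hb => ?_⟩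
  · by_contra h1
    simp only [Set.mem_union, Set.mem_ofPred_eq, not_or, not_not] at h1
    exact hi (by simp [h1.1, h1.2])
  · simp [hb]
  · cases h1 : p.1 i with
    | none => simp [h1, hb]
    | some b' => simp [h1, h i b' b h1 hb]

open Classical in
/-- Restriction. -/
noncomputable def PP.restr (F : Finset (A × ℕ)) (p : PP A) : PP A :=
  ⟨fun i => if i.1 ∈ F then p.1 i else none, p.2.subset fun i hi h => hi (by simp [h])⟩

theorem PP.le_restr (F : Finset (A × ℕ)) (p : PP A) : p ≤ p.restr F := fun i b h => by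
  simp only [PP.restr] at h
  split_ifs at h
  exact h

variable (H : Subgroup (Equiv.Perm A))

/-- Permutations over an element of `H`. -/
def Gam : Subgroup (Equiv.Perm (A × ℕ)) where
  carrier := {π | ∃ ρ ∈ H, ∀ x, (π x).1 = ρ x.1}
  one_mem' := ⟨1, H.one_mem, fun _ => rfl⟩
  mul_mem' := by
    rintro π σ ⟨ρ, h1, h2⟩ ⟨τ, h3, h4⟩
    exact ⟨ρ * τ, H.mul_mem h1 h3, fun x => by
      rw [Equiv.Perm.mul_apply, h2, h4, Equiv.Perm.mul_apply]⟩
  inv_mem' := by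
    rintro π ⟨ρ, h1, h2⟩
    refine ⟨ρ⁻¹, H.inv_mem h1, fun x => ?_⟩
    have := h2 (π⁻¹ x)
    rw [p_ai] at this
    rw [this, p_ia]

instance : MulAction (Gam H) (PP A) where
  smul π p := ⟨fun i => p.1 (π.1⁻¹ i.1, i.2),
    (p.2.image fun i => (π.1 i.1, i.2)).subset fun i hi => ⟨_, hi, by simp⟩⟩
  one_smul _ := rfl
  mul_smul _ _ _ := rfl

variable {H}

theorem smul_val (π : Gam H) (p : PP A) (i : (A × ℕ) × ℕ) :
    (π • p).1 i = p.1 (π.1⁻¹ i.1, i.2) := rfl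

instance : CovariantClass (Gam H) (PP A) (· • ·) (· ≤ ·) :=
  ⟨fun _ _ _ h _ b h1 => h _ b h1⟩

variable (H)

/-- Pointwise stabilizers. -/
def fixS (F : Finset (A × ℕ)) : Subgroup (Gam H) where
  carrier := {π | ∀ x ∈ F, π.1 x = x}
  one_mem' := fun _ _ => rfl
  mul_mem' := fun {π σ} h1 h2 x hx => by
    change π.1 (σ.1 x) = x
    rw [h2 x hx, h1 x hx]
  inv_mem' := fun {π} h x hx => by
    change π.1⁻¹ x = x
    rw [Equiv.Perm.inv_eq_iff_eq, h x hx]

open Classical in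
/-- The filter of finite supports. -/
def FF : NF (Gam H) where
  S := Set.range (fixS H)
  ne := ⟨_, ∅, rfl⟩
  dir := by
    rintro _ ⟨F, rfl⟩ _ ⟨F', rfl⟩
    exact ⟨_, ⟨F ∪ F', rfl⟩, fun π h x hx => h x (Finset.mem_union_left _ hx),
      fun π h x hx => h x (Finset.mem_union_right _ hx)⟩
  conj := by
    rintro π _ ⟨F, rfl⟩
    refine ⟨_, ⟨F.image π.1, rfl⟩, fun σ h x hx => ?_⟩
    change π.1⁻¹ (σ.1 (π.1 x)) = x
    rw [h _ (Finset.mem_image_of_mem _ hx), p_ia]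

variable {H}

theorem exists_pi (ρ : H) (F : Finset (A × ℕ)) (hF : ∀ x ∈ F, ρ.1 x.1 = x.1) (N : ℕ)
    (hN : ∀ x ∈ F, x.2 < N) :
    ∃ π : Gam H, π ∈ fixS H F ∧ (∀ x, (π.1 x).1 = ρ.1 x.1) ∧
      ∀ x, x ∉ F → x.2 < N → N ≤ (π.1 x).2 := by
  classical
  let g : A × ℕ → A × ℕ := fun x =>
    if x ∉ F ∧ x.2 < N then (x.1, x.2 + N)
    else if N ≤ x.2 ∧ x.2 < 2 * N ∧ (x.1, x.2 - N) ∉ F then (x.1, x.2 - N) else x
  have hg : Function.Involutive g := by
    rintro ⟨a, n⟩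
    by_cases h1 : (a, n) ∉ F ∧ n < N
    · have e1 : g (a, n) = (a, n + N) := if_pos h1
      rw [e1]
      simp only [g]
      rw [if_neg (by omega), if_pos ⟨by omega, by omega, by simpa using h1.1⟩]
      simp
    · by_cases h2 : N ≤ n ∧ n < 2 * N ∧ (a, n - N) ∉ F
      · have e1 : g (a, n) = (a, n - N) := by
          simp only [g]
          rw [if_neg h1, if_pos h2]
        rw [e1]
        simp only [g]
        rw [if_pos ⟨h2.2.2, by omega⟩]
        simp only [Prod.mk.injEq, true_and]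
        omega
      · have e1 : g (a, n) = (a, n) := by
          simp only [g]
          rw [if_neg h1, if_neg h2]
        rw [e1, e1]
  have hg1 : ∀ x, (g x).1 = x.1 := fun x => by
    simp only [g]
    split_ifs <;> rfl
  have h1 : ∀ x, ((hg.toPerm * Equiv.prodCongr ρ.1 (Equiv.refl ℕ)) x) = g (ρ.1 x.1, x.2) :=
    fun x => rfl
  refine ⟨⟨hg.toPerm * Equiv.prodCongr ρ.1 (Equiv.refl ℕ), ρ.1, ρ.2, fun x => by
    rw [h1, hg1]⟩, fun x hx => ?_, fun x => by rw [h1, hg1], fun x hx hx' => ?_⟩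
  · change g (ρ.1 x.1, x.2) = x
    rw [hF x hx]
    have := hN x hx
    simp only [g]
    rw [if_neg (fun h => h.1 hx), if_neg (by omega)]
  · change N ≤ (g (ρ.1 x.1, x.2)).2
    have h2 : (ρ.1 x.1, x.2) ∉ F := fun h => hx (by
      have h3 : ρ.1 x.1 = x.1 := ρ.1.injective (hF _ h)
      rwa [h3] at h)
    simp only [g]
    rw [if_pos ⟨h2, hx'⟩]
    simp

theorem exists_pi_compat (ρ : H) (F : Finset (A × ℕ)) (hF : ∀ x ∈ F, ρ.1 x.1 = x.1)
    (p q : PP A) (hq : q ≤ p.restr F) (y : A × ℕ) :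
    ∃ π : Gam H, π ∈ fixS H F ∧ (∀ x, (π.1 x).1 = ρ.1 x.1) ∧ (y ∉ F → π.1 y ≠ y) ∧
      ∃ r, r ≤ π • p ∧ r ≤ q := by
  obtain ⟨N₁, h1⟩ := p.bound
  obtain ⟨N₂, h2⟩ := q.bound
  obtain ⟨N₃, h3⟩ := (F.image Prod.snd).bddAbove
  obtain ⟨π, h4, h5, h6⟩ := exists_pi ρ F hF (N₁ + N₂ + N₃ + y.2 + 1) (fun x hx => by
    have := h3 (Finset.mem_coe.2 (Finset.mem_image_of_mem _ hx))
    omega)
  refine ⟨π, h4, h5, fun hy h7 => ?_, PP.common fun i b b' h7 h8 => ?_⟩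
  · have := h6 y hy (by omega)
    rw [h7] at this
    omega
  · rw [smul_val] at h7
    by_cases h9 : π.1⁻¹ i.1 ∈ F
    · have h10 := h4 _ h9
      rw [p_ai] at h10
      have h11 : q.1 (π.1⁻¹ i.1, i.2) = some b := hq _ b (by
        simp only [PP.restr]
        rw [if_pos h9, h7])
      rw [← h10, h8] at h11
      exact (Option.some.inj h11).symm
    · have h10 := (h1 _ (by rw [h7]; simp)).1
      have h11 := h6 _ h9 (by simp only at h10; omega)
      rw [p_ai] at h11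
      have h12 := (h2 i (by rw [h8]; simp)).1
      omega

/-- The generic reals. -/
def realN (x : A × ℕ) : Nm (PP A) :=
  ⟨ℕ, natN, fun n => ⟨{q | q.1 (x, n) = some true}, fun _ _ h h' => h _ _ h'⟩⟩

/-- The atoms. -/
def atomN (a : A) : Nm (PP A) := ⟨ℕ, fun n => realN (a, n), fun _ => ⊤⟩

theorem act_realN (π : Gam H) (x : A × ℕ) : act π (realN x) = realN (π.1 x) := by
  simp only [realN, act]
  congr 1
  funext n
  exact (chk_natN n).act π

theorem realN_ne {x y : A × ℕ} (h : x ≠ y) (p : PP A) : ¬ feq (realN x) (realN y) p := by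
  intro h1
  obtain ⟨N, hN⟩ := p.bound
  have hx : p.1 (x, N) = none := by
    by_contra h2
    exact lt_irrefl _ (hN _ h2).2
  have hy : p.1 (y, N) = none := by
    by_contra h2
    exact lt_irrefl _ (hN _ h2).2
  classical
  let q : PP A := ⟨fun i => if i = (x, N) then some true else if i = (y, N) then some false
    else p.1 i, ((p.2.insert (x, N)).insert (y, N)).subset fun i hi => by
      by_contra h2
      simp only [Set.mem_insert_iff, Set.mem_ofPred_eq, not_or, not_not] at h2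
      exact hi (by simp [h2.1, h2.2.1, h2.2.2])⟩
  have hq : q ≤ p := fun i b hb => by
    have h2 : i ≠ (x, N) := fun h3 => by rw [h3, hx] at hb; cases hb
    have h3 : i ≠ (y, N) := fun h3 => by rw [h3, hy] at hb; cases hb
    simp [q, h2, h3, hb]
  obtain ⟨r, hr, m, h2, h3⟩ := h1.1 N q hq (show q.1 (x, N) = some true by simp [q])
  obtain rfl : N = m := natN_inj h3
  have h4 : r.1 (y, N) = some false := hr _ _ (by simp [q, h.symm])
  have h5 : r.1 (y, N) = some true := h2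
  rw [h4] at h5
  cases h5

theorem hs_realN (x : A × ℕ) : HS (FF H) (realN x) := by
  refine ⟨⟨_, ⟨{x}, rfl⟩, fun π hπ p => ?_⟩, fun n => (chk_natN n).hs _⟩
  change feq (act π (realN x)) (realN x) p
  rw [act_realN, hπ x (Finset.mem_singleton_self x)]
  exact feq.refl _ _

theorem act_atomN (π : Gam H) (ρ : Equiv.Perm A) (h : ∀ x, (π.1 x).1 = ρ x.1) (a : A)
    (p : PP A) : feq (act π (atomN a)) (atomN (ρ a)) p := by
  refine ⟨fun n q _ _ => ⟨q, le_rfl, (π.1 (a, n)).2, trivial, ?_⟩,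
    fun n q _ _ => ⟨q, le_rfl, (π.1⁻¹ (ρ a, n)).2, trivial, ?_⟩⟩
  · beta_reduce
    rw [act_realN, ← h (a, n)]
    exact feq.refl _ _
  · have h1 := h (π.1⁻¹ (ρ a, n))
    rw [p_ai] at h1
    have h2 : a = (π.1⁻¹ (ρ a, n)).1 := ρ.injective h1
    beta_reduce
    rw [act_realN]
    have h3 : (a, (π.1⁻¹ (ρ a, n)).2) = π.1⁻¹ (ρ a, n) := Prod.ext h2 rfl
    rw [h3, p_ai]
    exact feq.refl _ _

theorem atomN_ne {a b : A} (h : a ≠ b) (p : PP A) : ¬ feq (atomN a) (atomN b) p := by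
  intro h1
  obtain ⟨r, -, m, -, h2⟩ := h1.1 (0 : ℕ) p le_rfl trivial
  exact realN_ne (fun h3 => h (congrArg Prod.fst h3)) r h2

/-- A transitive family of hereditarily finitely supported objects over the atoms `A`. -/
structure Frag (H : Subgroup (Equiv.Perm A)) (T : Type) [MulAction H T] where
  /-- the atoms -/
  atm : A → T
  /-- membership -/
  mem : T → T → Prop
  wf : WellFounded mem
  inj : Function.Injective atm
  sm_atm : ∀ (ρ : H) a, ρ • atm a = atm (ρ.1 a)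
  sm_mem : ∀ (ρ : H) σ τ, mem σ τ → mem (ρ • σ) (ρ • τ)
  supp : ∀ τ : T, ∃ E : Finset A, ∀ ρ : H, (∀ a ∈ E, ρ.1 a = a) → ρ • τ = τ

namespace Frag

variable {T : Type} [MulAction H T] (Φ : Frag H T)

open Classical in
/-- The name of an object. -/
noncomputable def tl : T → Nm (PP A) :=
  Φ.wf.fix fun τ ih => if h : ∃ a, τ = Φ.atm a then atomN h.choose
    else ⟨{σ // Φ.mem σ τ}, fun σ => ih σ.1 σ.2, fun _ => ⊤⟩

theorem tl_atm (a : A) : Φ.tl (Φ.atm a) = atomN a := by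
  have h : ∃ b, Φ.atm a = Φ.atm b := ⟨a, rfl⟩
  rw [tl, WellFounded.fix_eq, dif_pos h, ← Φ.inj h.choose_spec]

theorem tl_set {τ : T} (h : ∀ a, τ ≠ Φ.atm a) :
    Φ.tl τ = ⟨{σ // Φ.mem σ τ}, fun σ => Φ.tl σ.1, fun _ => ⊤⟩ := by
  rw [tl, WellFounded.fix_eq, dif_neg (fun ⟨a, ha⟩ => h a ha)]

theorem act_tl (π : Gam H) (ρ : H) (h : ∀ x, (π.1 x).1 = ρ.1 x.1) (τ : T) :
    ∀ p, feq (act π (Φ.tl τ)) (Φ.tl (ρ • τ)) p := by
  induction τ using Φ.wf.induction with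
  | _ τ ih =>
    intro p
    by_cases h1 : ∃ a, τ = Φ.atm a
    · obtain ⟨a, rfl⟩ := h1
      rw [Φ.sm_atm, tl_atm, tl_atm]
      exact act_atomN π _ h a p
    · have h2 : ∀ a, τ ≠ Φ.atm a := fun a ha => h1 ⟨a, ha⟩
      have h3 : ∀ a, ρ • τ ≠ Φ.atm a := fun a ha => h2 (ρ⁻¹.1 a) (by
        rw [← Φ.sm_atm, ← ha, inv_smul_smul])
      rw [Φ.tl_set h2, Φ.tl_set h3]
      refine ⟨fun σ q _ _ => ⟨q, le_rfl, ⟨ρ • σ.1, Φ.sm_mem ρ _ _ σ.2⟩, trivial, ih σ.1 σ.2 q⟩,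
        fun σ q _ _ => ?_⟩
      have h4 : Φ.mem (ρ⁻¹ • σ.1) τ := by
        have := Φ.sm_mem ρ⁻¹ _ _ σ.2
        rwa [inv_smul_smul] at this
      refine ⟨q, le_rfl, ⟨_, h4⟩, trivial, ?_⟩
      have := ih _ h4 q
      rwa [smul_inv_smul] at this

theorem symm_tl (τ : T) : Symm (FF H) (Φ.tl τ) := by
  classical
  obtain ⟨E, hE⟩ := Φ.supp τ
  refine ⟨_, ⟨E.image fun a => (a, 0), rfl⟩, fun π hπ p => ?_⟩
  obtain ⟨ρ, h1, h2⟩ := π.2
  have h3 := Φ.act_tl π ⟨ρ, h1⟩ h2 τ p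
  rwa [hE ⟨ρ, h1⟩ fun a ha => by
    have h4 := h2 (a, 0)
    rw [hπ _ (Finset.mem_image_of_mem _ ha)] at h4
    exact h4.symm] at h3

theorem hs_tl (τ : T) : HS (FF H) (Φ.tl τ) := by
  induction τ using Φ.wf.induction with
  | _ τ ih =>
    refine (hs_def _).2 ⟨Φ.symm_tl τ, ?_⟩
    by_cases h1 : ∃ a, τ = Φ.atm a
    · obtain ⟨a, rfl⟩ := h1
      rw [tl_atm]
      exact fun n => hs_realN _
    · rw [Φ.tl_set fun a ha => h1 ⟨a, ha⟩]
      exact fun σ => ih σ.1 σ.2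

theorem realN_ne_tl (x : A × ℕ) (σ : T) (p : PP A) : ¬ feq (realN x) (Φ.tl σ) p := by
  intro h
  obtain ⟨π, -, h2, h3, r, h4, h5⟩ := exists_pi_compat (1 : H) ∅ (by simp) p p
    (p.le_restr _) x
  have h6 := h.act π
  rw [act_realN] at h6
  have h7 := Φ.act_tl π 1 h2 σ r
  rw [one_smul] at h7
  exact realN_ne (h3 (by simp)) r (((h6.mono h4).trans h7).trans (h.mono h5).symm)

theorem fmem_restr {y : Nm (PP A)} {F : Finset (A × ℕ)} (hy : Fixes (fixS H F) y) (ρ : H)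
    (hF : ∀ x ∈ F, ρ.1 x.1 = x.1) {τ : T} {p : PP A} (h : fmem (Φ.tl τ) y p) :
    fmem (Φ.tl (ρ • τ)) y (p.restr F) := by
  refine fmem_of_dn fun q hq => ?_
  obtain ⟨a, -⟩ | h0 : (∃ a : A × ℕ, True) ∨ ¬ ∃ a : A × ℕ, True := em _
  · obtain ⟨π, h1, h2, -, r, h4, h5⟩ := exists_pi_compat ρ F hF p q hq a
    exact ⟨r, h5, (((h.act π).mono h4).left (Φ.act_tl π ρ h2 τ r)).right (hy π h1 r)⟩
  · have h1 : ρ = 1 := Subtype.ext (Equiv.ext fun a => absurd ⟨(a, 0), trivial⟩ h0)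
    rw [h1, one_smul]
    exact ⟨q, le_rfl, h.mono fun i => absurd ⟨i.1, trivial⟩ h0⟩

/-- The transfer theorem. -/
theorem exists_model [Countable T] [Nonempty T] :
    ∃ (N : Type) (S : Str N) (val : T → N), WellFounded S.E ∧
      (∀ a b, val (Φ.atm a) = val (Φ.atm b) → a = b) ∧
      (∀ a τ, (∀ b, τ ≠ Φ.atm b) → val (Φ.atm a) ≠ val τ) ∧
      (∀ τ, (∀ a, τ ≠ Φ.atm a) → ∀ x, S.E x (val τ) ↔ ∃ σ, Φ.mem σ τ ∧ x = val σ) ∧
      ∀ Y : N, ∃ E : Finset A, ∀ ρ : H, (∀ a ∈ E, ρ.1 a = a) →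
        ∀ τ, S.E (val τ) Y → S.E (val (ρ • τ)) Y := by
  classical
  have : Countable A := Φ.inj.countable
  obtain ⟨s, hs⟩ := exists_surjective_nat (T ⊕ Unit ⊕ A × ℕ)
  let nm : T ⊕ Unit ⊕ A × ℕ → Nm (PP A) := fun z => match z with
    | .inl τ => Φ.tl τ
    | .inr (.inl _) => natN 0
    | .inr (.inr x) => realN x
  obtain ⟨M, -, -⟩ := exists_mod (FF H) (fun n => nm (s n)) (fun n => by
    rcases s n with τ | u | x
    · exact Φ.hs_tl τ
    · exact (chk_natN 0).hs _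
    · exact hs_realN x) PP.top (fun _ _ _ => True) fun _ _ p => ⟨p, le_rfl, trivial⟩
  have h1 : ∀ z, ∃ a, M.Den (nm z) a ∧ ∀ x, M.E x a →
      ∃ j, M.Den ((nm z).A j) x := fun z => by
    obtain ⟨n, rfl⟩ := hs z
    obtain ⟨a, h1, h2⟩ := M.exists_base n
    exact ⟨a, h1, fun x hx => (h2 x hx).imp fun _ h => h.1⟩
  choose val' h2' h3' using h1
  let val : T → M.N := fun τ => val' (.inl τ)
  have h2 : ∀ τ, M.Den (Φ.tl τ) (val τ) := fun τ => h2' (.inl τ)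
  have h3 : ∀ τ x, M.E x (val τ) → ∃ j, M.Den ((Φ.tl τ).A j) x := fun τ => h3' (.inl τ)
  have h4 : ∀ τ, (∀ a, τ ≠ Φ.atm a) → ∀ x, M.E x (val τ) ↔ ∃ σ, Φ.mem σ τ ∧ x = val σ := by
    intro τ hτ x
    constructor
    · intro hx
      have h5 := h3 τ x hx
      rw [Φ.tl_set hτ] at h5
      obtain ⟨σ, h5⟩ := h5
      exact ⟨σ.1, σ.2, (h5.eq_iff (h2 σ.1)).2 (Mod.GE.refl _)⟩
    · rintro ⟨σ, h5, rfl⟩
      refine ((h2 σ).mem_iff (h2 τ)).2 ?_
      obtain ⟨p, hp⟩ := M.ne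
      rw [Φ.tl_set hτ]
      exact ⟨p, hp, fmem_child (⟨{σ // Φ.mem σ τ}, fun σ => Φ.tl σ.1, fun _ => ⊤⟩ : Nm (PP A))
        (⟨σ, h5⟩ : {σ // Φ.mem σ τ}) trivial⟩
  refine ⟨M.N, M.str, val, M.wf, fun a b h => ?_, fun a τ hτ h => ?_, h4, fun Y => ?_⟩
  · obtain ⟨p, -, h5⟩ := ((h2 _).eq_iff (h2 _)).1 h
    rw [tl_atm, tl_atm] at h5
    by_contra h6
    exact atomN_ne h6 p h5
  · have h5 : M.Den (realN (a, 0)) (val' (.inr (.inr (a, 0)))) := h2' (.inr (.inr (a, 0)))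
    have h6 : M.E (val' (.inr (.inr (a, 0)))) (val (Φ.atm a)) := by
      refine (h5.mem_iff (h2 _)).2 ?_
      obtain ⟨p, hp⟩ := M.ne
      rw [tl_atm]
      exact ⟨p, hp, fmem_child (atomN a) (0 : ℕ) trivial⟩
    rw [h] at h6
    obtain ⟨σ, -, h7⟩ := (h4 τ hτ _).1 h6
    obtain ⟨p, -, h8⟩ := (h5.eq_iff (h2 σ)).1 h7
    exact Φ.realN_ne_tl _ σ p h8
  · obtain ⟨y, hy, h5⟩ := M.exists_den Y
    obtain ⟨_, ⟨F, rfl⟩, h6⟩ := hy.symm
    refine ⟨F.image Prod.fst, fun ρ hρ τ h7 => ?_⟩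
    obtain ⟨p, hp, h8⟩ := ((h2 τ).mem_iff h5).1 h7
    exact ((h2 _).mem_iff h5).2 ⟨_, M.up p hp _ (p.le_restr F), Φ.fmem_restr h6 ρ
      (fun x hx => hρ _ (Finset.mem_image_of_mem _ hx)) h8⟩

end Frag

end Pool.Agent.H982Z.Sym
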