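import Pool.Agent.H982Z.Sym.Atoms

/-!
# More on symmetric models: requirements, forced infinity, orbits of names
-/

set_option autoImplicit false

namespace Pool.Agent.H982Z.Sym

open Pool.Agent.H164Z.Bspt

variable {P : Type} [Preorder P]
variable {Γ : Type} [Group Γ] [MulAction Γ P] [CovariantClass Γ P (· • ·) (· ≤ ·)]

/-- The model meets the requirements `A`. -/
def Mod.Meets {F : NF Γ} {b : ℕ → Nm P} (M : Mod F b) {J : Type}
    (A : J → List (Nm P) → Nm P → P → Prop) : Prop :=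
  ∀ j (l : List ℕ), ∀ p ∈ M.G, Dn (fun r => ∃ x, HS F x ∧ A j (l.map M.e) x r) p →
    ∃ q ∈ M.G, ∃ k, A j (l.map M.e) (M.e k) q

theorem exists_mod' (F : NF Γ) (b : ℕ → Nm P) (hb : ∀ n, HS F (b n)) (p₀ : P)
    {J : Type} [Countable J] (X : J → List (Nm P) → Nm P → P → Prop) :
    ∃ M : Mod F b, M.Meets X := by
  classical
  let T := {x : Nm P // HS F x} × P
  let lv : List T → ℕ → Nm P := fun l i => (l.getD i (⟨b 0, hb 0⟩, p₀)).1.1
  let R : (ℕ ⊕ Fml) ⊕ (Fml ⊕ Unit) ⊕ J → List T → T → Prop := fun j l t => match j with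
    | .inl (.inl n) => t.1.1 = b n
    | .inl (.inr φ) => Force F φ (lv l) t.2 ∨ Force F (.neg φ) (lv l) t.2
    | .inr (.inl (.inl φ)) => Force F (.all φ) (lv l) t.2 ∨
        Force F (.neg φ) (cons t.1.1 (lv l)) t.2
    | .inr (.inl (.inr _)) => (∀ q ≤ t.2, ¬ fmem (lv l 0) (lv l 1) q) ∨
        ∃ j, t.2 ∈ (lv l 1).c j ∧ feq (lv l 0) ((lv l 1).A j) t.2 ∧ t.1.1 = (lv l 1).A j
    | .inr (.inr n) => X n (l.map fun t => t.1.1) t.1.1 t.2 ∨
        ∀ r ≤ t.2, ∀ x, HS F x → ¬ X n (l.map fun t => t.1.1) x r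
  have hlv : ∀ l i, HS F (lv l i) := fun l i => (l.getD i (⟨b 0, hb 0⟩, p₀)).1.2
  obtain ⟨e, h1, h0, h2⟩ := exists_generic (T := T) Prod.snd (⟨b 0, hb 0⟩, p₀) R (by
    rintro ((n | φ) | (φ | u) | n) l p
    · exact ⟨(⟨b n, hb n⟩, p), le_rfl, rfl⟩
    · by_cases h : Force F φ (lv l) p
      · exact ⟨(⟨b 0, hb 0⟩, p), le_rfl, Or.inl h⟩
      · obtain ⟨q, hq, h3⟩ := exists_force_neg h
        exact ⟨(⟨b 0, hb 0⟩, q), hq, Or.inr h3⟩
    · by_cases h : Force F (.all φ) (lv l) p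
      · exact ⟨(⟨b 0, hb 0⟩, p), le_rfl, Or.inl h⟩
      · obtain ⟨x, hx⟩ := not_forall.1 h
        obtain ⟨hx, h3⟩ := Classical.not_imp.1 hx
        obtain ⟨q, hq, h4⟩ := exists_force_neg h3
        exact ⟨(⟨x, hx⟩, q), hq, Or.inr h4⟩
    · by_cases h : ∀ q ≤ p, ¬ fmem (lv l 0) (lv l 1) q
      · exact ⟨(⟨b 0, hb 0⟩, p), le_rfl, Or.inl h⟩
      · push Not at h
        obtain ⟨q, hq, h3⟩ := h
        obtain ⟨r, hr, j, h4, h5⟩ := h3 q le_rfl
        exact ⟨(⟨_, (hlv l 1).child j⟩, r), hr.trans hq, Or.inr ⟨j, h4, h5, rfl⟩⟩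
    · by_cases h : ∀ r ≤ p, ∀ x, HS F x → ¬ X n (l.map fun t => t.1.1) x r
      · exact ⟨(⟨b 0, hb 0⟩, p), le_rfl, Or.inr h⟩
      · push Not at h
        obtain ⟨r, hr, x, hx, h3⟩ := h
        exact ⟨(⟨x, hx⟩, r), hr, Or.inl h3⟩)
  have hr : ∀ n i, i < n → lv ((List.range n).map e) i = (e i).1.1 := fun n i hi => by
    simp [lv, List.getD_eq_getElem?_getD, hi]
  have hG : ∀ k, (e k).2 ∈ {q | ∃ k, (e k).2 ≤ q} := fun k => ⟨k, le_rfl⟩
  refine ⟨⟨fun k => (e k).1.1, {q | ∃ k, (e k).2 ≤ q}, fun k => (e k).1.2, fun n => ?_,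
    fun p ⟨k, hk⟩ q hq => ⟨k, hk.trans hq⟩, fun p ⟨k, hk⟩ q ⟨l, hl⟩ => ⟨_, hG (max k l),
      (h1 (le_max_left k l)).trans hk, (h1 (le_max_right k l)).trans hl⟩, ⟨_, hG 0⟩,
    fun φ => ?_, fun φ => ?_, fun k l => ?_⟩, fun n l p hp hd => ?_⟩
  · exact h2 (.inl (.inl n)) []
  · obtain ⟨k, hk⟩ := h2 (.inl (.inr φ)) (List.range (bd φ))
    refine ⟨_, hG k, hk.imp (force_congr fun i hi => ?_) (force_congr fun i hi => ?_)⟩
    · rw [hr (bd φ) i hi]; exact feq.refl _ _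
    · rw [hr (bd φ) i hi]; exact feq.refl _ _
  · obtain ⟨k, hk⟩ := h2 (.inr (.inl (.inl φ))) (List.range (bd φ))
    refine ⟨_, hG k, hk.imp (force_congr fun i hi => ?_)
      (fun h => ⟨k, force_congr (fun i hi => ?_) h⟩)⟩
    · rw [hr (bd φ) i hi]; exact feq.refl _ _
    · cases i with
      | zero => exact feq.refl _ _
      | succ i =>
        change feq (lv _ i) (e i).1.1 _
        rw [hr _ i (by simp only [bd] at hi; omega)]; exact feq.refl _ _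
  · obtain ⟨m, hm⟩ := h2 (.inr (.inl (.inr ()))) [k, l]
    refine ⟨_, hG m, hm.imp id ?_⟩
    rintro ⟨j, h3, h4, h5⟩
    exact ⟨j, h3, h4, m, h5⟩
  · obtain ⟨m, hm⟩ := h2 (.inr (.inr n)) l
    have e1 : l.map (fun k => (e k).1.1) = (l.map e).map fun t => t.1.1 := by simp
    change X n ((l.map e).map fun t => t.1.1) (e m).1.1 (e m).2 ∨ ∀ r ≤ (e m).2, ∀ x, HS F x →
      ¬ X n ((l.map e).map fun t => t.1.1) x r at hm
    rw [← e1] at hm
    rcases hm with hm | hm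
    · exact ⟨_, hG m, m, hm⟩
    · obtain ⟨k, hk⟩ := hp
      obtain ⟨r, h3, x, hx, h4⟩ := hd (e (max k m)).2 ((h1 (le_max_left k m)).trans hk)
      exact absurd h4 (hm r (h3.trans (h1 (le_max_right k m))) x hx)

/-! ### Forced infinity -/

/-- Forcing of inequality. -/
def fne (x y : Nm P) (p : P) : Prop := ∀ s ≤ p, ¬ feq x y s

/-- Forcing of non-membership. -/
def fnm (x y : Nm P) (p : P) : Prop := ∀ s ≤ p, ¬ fmem x y s

theorem fne.mono {x y : Nm P} {p q : P} (h : fne x y p) (hq : q ≤ p) : fne x y q :=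
  fun s hs => h s (hs.trans hq)

theorem fnm.mono {x y : Nm P} {p q : P} (h : fnm x y p) (hq : q ≤ p) : fnm x y q :=
  fun s hs => h s (hs.trans hq)

theorem fne.act {x y : Nm P} {p : P} (h : fne x y p) (π : Γ) :
    fne (act π x) (act π y) (π • p) := fun s hs h1 => by
  refine h (π⁻¹ • s) ((le_sm π).1 hs) ((feq_act_iff π).1 ?_)
  rwa [smul_inv_smul]

theorem fnm.act {x y : Nm P} {p : P} (h : fnm x y p) (π : Γ) :
    fnm (act π x) (act π y) (π • p) := fun s hs h1 => by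
  refine h (π⁻¹ • s) ((le_sm π).1 hs) ((fmem_act_iff π).1 ?_)
  rwa [smul_inv_smul]

theorem fne.congr {x y x' y' : Nm P} {p : P} (h : fne x y p) (h1 : feq x x' p)
    (h2 : feq y y' p) : fne x' y' p := fun s hs h3 =>
  h s hs ((h1.mono hs).trans (h3.trans (h2.mono hs).symm))

theorem fnm.congr {x y x' y' : Nm P} {p : P} (h : fnm x y p) (h1 : feq x x' p)
    (h2 : feq y y' p) : fnm x' y' p := fun s hs h3 =>
  h s hs ((h3.left (h1.mono hs).symm).right (h2.mono hs).symm)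

theorem fnm_of_dn {x y : Nm P} {p : P} (h : Dn (fnm x y) p) : fnm x y p := fun s hs h1 => by
  obtain ⟨r, hr, h2⟩ := h s hs
  exact h2 r le_rfl (h1.mono hr)

theorem exists_dec (x y : Nm P) (p : P) : ∃ q ≤ p, fmem x y q ∨ fnm x y q := by
  by_cases h : fnm x y p
  · exact ⟨p, le_rfl, Or.inr h⟩
  · simp only [fnm, not_forall, not_not] at h
    obtain ⟨s, hs, h⟩ := h
    exact ⟨s, hs, Or.inl h⟩

/-- The class `Ψ` is forced to be infinite. -/
def FInf (F : NF Γ) (Ψ : Nm P → P → Prop) (p : P) : Prop :=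
  ∀ l : List (Nm P), Dn (fun r => ∃ z, HS F z ∧ Ψ z r ∧ ∀ y ∈ l, fne z y r) p

theorem pigeon {I : Type} (l : List (Nm P)) (J : Finset I) (f : I → Nm P) (r : P)
    (hJ : l.length < J.card) (h : ∀ i ∈ J, Dn (fun s => ∃ y ∈ l, feq (f i) y s) r) :
    ∃ s ≤ r, ∃ i ∈ J, ∃ j ∈ J, i ≠ j ∧ feq (f i) (f j) s := by
  classical
  have h1 : ∀ K : Finset I, K ⊆ J → ∃ s ≤ r, ∀ i ∈ K, ∃ y ∈ l, feq (f i) y s := by
    intro K
    induction K using Finset.induction_on with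
    | empty => exact fun _ => ⟨r, le_rfl, by simp⟩
    | insert a K _ ih =>
      intro hK
      obtain ⟨s, hs, h2⟩ := ih ((Finset.subset_insert a K).trans hK)
      obtain ⟨t, ht, h3⟩ := h a (hK (Finset.mem_insert_self a K)) s hs
      refine ⟨t, ht.trans hs, fun i hi => ?_⟩
      rcases Finset.mem_insert.1 hi with rfl | hi
      · exact h3
      · obtain ⟨y, h4, h5⟩ := h2 i hi
        exact ⟨y, h4, h5.mono ht⟩
  obtain ⟨s, hs, h2⟩ := h1 J le_rfl
  have h3 : ∀ i, ∃ y, i ∈ J → y ∈ l ∧ feq (f i) y s := fun i => by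
    by_cases hi : i ∈ J
    · obtain ⟨y, hy⟩ := h2 i hi
      exact ⟨y, fun _ => hy⟩
    · exact ⟨f i, fun h => absurd h hi⟩
  choose m hm using h3
  obtain ⟨i, hi, j, hj, hij, h4⟩ := Finset.exists_ne_map_eq_of_card_lt_of_maps_to
    (t := l.toFinset) ((List.toFinset_card_le l).trans_lt hJ) (f := m)
    fun i hi => Finset.mem_coe.2 (List.mem_toFinset.2 (hm i hi).1)
  exact ⟨s, hs, i, hi, j, hj, hij, (hm i hi).2.trans (h4 ▸ (hm j hj).2.symm)⟩

theorem finf_of_family {F : NF Γ} {Ψ : Nm P → P → Prop} {p : P} {I : Type} (f : I → Nm P)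
    (g : I → P → Prop) (hg : ∀ i q r, g i q → r ≤ q → g i r) (hf : ∀ i, HS F (f i))
    (h1 : ∀ i q, g i q → Ψ (f i) q) (h2 : ∀ i j q, i ≠ j → g i q → g j q → ¬ feq (f i) (f j) q)
    (h3 : ∀ J : Finset I, Dn (fun s => ∃ i ∉ J, g i s) p) : FInf F Ψ p := by
  classical
  intro l r hr
  have h4 : ∀ n, ∃ J : Finset I, J.card = n ∧ ∃ s ≤ r, ∀ i ∈ J, g i s := fun n => by
    induction n with
    | zero => exact ⟨∅, rfl, r, le_rfl, by simp⟩
    | succ n ih =>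
      obtain ⟨J, h5, s, hs, h6⟩ := ih
      obtain ⟨t, ht, i, h7, h8⟩ := h3 J s (hs.trans hr)
      refine ⟨insert i J, by rw [Finset.card_insert_of_notMem h7, h5], t, ht.trans hs,
        fun j hj => ?_⟩
      rcases Finset.mem_insert.1 hj with rfl | hj
      · exact h8
      · exact hg _ _ _ (h6 j hj) ht
  obtain ⟨J, h5, s, hs, h6⟩ := h4 (l.length + 1)
  by_contra h7
  obtain ⟨t, ht, i, hi, j, hj, hij, h8⟩ := pigeon l J f s (by omega) fun i hi t ht => by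
    by_contra h8
    exact h7 ⟨t, ht.trans hs, f i, hf i, h1 _ _ (hg _ _ _ (h6 i hi) ht),
      fun y hy u hu h9 => h8 ⟨u, hu, y, hy, h9⟩⟩
  exact h2 i j t hij (hg _ _ _ (h6 i hi) ht) (hg _ _ _ (h6 j hj) ht) h8

/-! ### Orbits of names -/

/-- The union of the orbit of a name. -/
def orb (H : Subgroup Γ) (x : Nm P) : Nm P :=
  ⟨H × x.ι, fun t => act t.1.1 (x.A t.2), fun t => tw t.1.1 (x.c t.2)⟩

theorem fmem_orb {H : Subgroup Γ} {x : Nm P} {γ : Γ} (hγ : γ ∈ H) (i : x.ι) {q : P}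
    (h : γ⁻¹ • q ∈ x.c i) : fmem (act γ (x.A i)) (orb H x) q :=
  fmem_child (orb H x) (⟨γ, hγ⟩, i) h

theorem orb_cases {H : Subgroup Γ} {x z : Nm P} {q : P} (h : fmem z (orb H x) q) :
    ∃ r ≤ q, ∃ γ ∈ H, ∃ i, γ⁻¹ • r ∈ x.c i ∧ feq z (act γ (x.A i)) r := by
  obtain ⟨r, hr, t, h1, h2⟩ := h q le_rfl
  exact ⟨r, hr, t.1.1, t.1.2, t.2, h1, h2⟩

theorem fixes_orb (H : Subgroup Γ) (x : Nm P) : Fixes H (orb H x) := by
  intro π hπ p
  refine ⟨fun t q _ h => ⟨q, le_rfl, (⟨π * t.1.1, H.mul_mem hπ t.1.2⟩, t.2), ?_, ?_⟩,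
    fun t q _ h => ⟨q, le_rfl, (⟨π⁻¹ * t.1.1, H.mul_mem (H.inv_mem hπ) t.1.2⟩, t.2), ?_, ?_⟩⟩
  · change (π * t.1.1)⁻¹ • q ∈ x.c t.2
    rw [mul_inv_rev, mul_smul]
    exact h
  · change feq (act π (act t.1.1 (x.A t.2))) (act (π * t.1.1) (x.A t.2)) q
    rw [act_act]
    exact feq.refl _ _
  · change (π⁻¹ * t.1.1)⁻¹ • π⁻¹ • q ∈ x.c t.2
    rw [mul_inv_rev, inv_inv, mul_smul, smul_inv_smul]
    exact h
  · change feq (act π (act (π⁻¹ * t.1.1) (x.A t.2))) (act t.1.1 (x.A t.2)) q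
    rw [act_act, mul_inv_cancel_left]
    exact feq.refl _ _

theorem hs_orb {F : NF Γ} {H : Subgroup Γ} (hH : H ∈ F.S) {x : Nm P}
    (hx : ∀ i, HS F (x.A i)) : HS F (orb H x) :=
  ⟨⟨H, hH, fixes_orb H x⟩, fun t => (hx t.2).act _⟩

theorem Fixes.congr {H : Subgroup Γ} {x : Nm P} (h : Fixes H x) {π σ : Γ} (h1 : π⁻¹ * σ ∈ H)
    (p : P) : feq (act σ x) (act π x) p := by
  have := (h _ h1 (π⁻¹ • p)).act π
  rwa [act_act, mul_inv_cancel_left, smul_inv_smul] at this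

/-- The two halves into which `T` cuts `Z`. -/
def Half (Z T : Nm P) : Bool → Nm P → P → Prop
  | true, z, q => fmem z Z q ∧ fmem z T q
  | false, z, q => fmem z Z q ∧ fnm z T q

/-- The orbit of the name is finite. -/
def FinOrb (H : Subgroup Γ) (z : Nm P) : Prop :=
  ∃ l : List (Nm P), ∀ γ ∈ H, ∃ y ∈ l, ∀ q, feq (act γ z) y q

theorem split_fin [Countable P] {F : NF Γ} {H : Subgroup Γ} (hH : H ∈ F.S) {Z : Nm P} {p : P}
    (h : FInf F (fun z q => fmem z Z q ∧ FinOrb H z) p) :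
    ∃ T, HS F T ∧ ∀ e, FInf F (Half Z T e) p := by
  classical
  have : Nonempty P := ⟨p⟩
  obtain ⟨σ, hσ⟩ := exists_surjective_nat (P × Bool × ℕ)
  have h1 : ∀ (l : List (Nm P)) (r : P), ∃ t : Nm P × P × List (Nm P), r ≤ p →
      t.2.1 ≤ r ∧ HS F t.1 ∧ fmem t.1 Z t.2.1 ∧ (∀ y ∈ l, fne t.1 y t.2.1) ∧
      ∀ γ ∈ H, ∃ y ∈ t.2.2, ∀ q, feq (act γ t.1) y q := fun l r => by
    by_cases hr : r ≤ p
    · obtain ⟨s, hs, z, h2, ⟨h3, l', h4⟩, h5⟩ := h l r hr
      exact ⟨(z, s, l'), fun _ => ⟨hs, h2, h3, h5, h4⟩⟩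
    · exact ⟨(Z, p, []), fun h => absurd h hr⟩
  choose t ht using h1
  let L : ℕ → List (Nm P) := fun n => Nat.rec [] (fun n l => l ++ (t l (σ n).1).2.2) n
  have hL : ∀ n, L (n + 1) = L n ++ (t (L n) (σ n).1).2.2 := fun n => rfl
  have hL2 : ∀ m n, m < n → ∀ y ∈ (t (L m) (σ m).1).2.2, y ∈ L n := fun m n hmn y hy => by
    induction n with
    | zero => exact absurd hmn (Nat.not_lt_zero m)
    | succ n ih =>
      rw [hL]
      rcases Nat.lt_succ_iff_lt_or_eq.1 hmn with h2 | rfl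
      · exact List.mem_append_left _ (ih h2)
      · exact List.mem_append_right _ hy
  let a : ℕ → Nm P := fun n => (t (L n) (σ n).1).1
  let s : ℕ → P := fun n => (t (L n) (σ n).1).2.1
  let I := {n // (σ n).1 ≤ p}
  have key : ∀ m n : I, m.1 < n.1 → ∀ γ ∈ H, fne (a n.1) (act γ (a m.1)) (s n.1) := by
    intro m n hmn γ hγ
    obtain ⟨y, h2, h3⟩ := (ht _ _ m.2).2.2.2.2 γ hγ
    exact ((ht _ _ n.2).2.2.2.1 y (hL2 _ _ hmn y h2)).congr (feq.refl _ _) (h3 _).symm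
  have key2 : ∀ m n : I, m ≠ n → ∀ γ ∈ H, ∀ q, q ≤ s n.1 → γ⁻¹ • q ≤ s m.1 →
      ¬ feq (a n.1) (act γ (a m.1)) q := by
    intro m n hmn γ hγ q h2 h3 h4
    rcases lt_or_gt_of_ne (fun h => hmn (Subtype.ext h)) with h5 | h5
    · exact key m n h5 γ hγ q h2 h4
    · refine key n m h5 γ⁻¹ (H.inv_mem hγ) _ h3 ?_
      have := (h4.act γ⁻¹).symm
      rwa [act_inv_act] at this
  let x : Nm P := ⟨{n : I // (σ n.1).2.1 = true}, fun n => a n.1.1,
    fun n => LowerSet.Iic (s n.1.1)⟩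
  refine ⟨orb H x, hs_orb hH fun n => (ht _ _ n.1.2).2.1, fun e => ?_⟩
  refine finf_of_family (I := I) (fun n => a n.1) (fun n q => q ≤ s n.1 ∧ (σ n.1).2.1 = e)
    (fun i q r h2 h3 => ⟨h3.trans h2.1, h2.2⟩) (fun n => (ht _ _ n.2).2.1) (fun n q h2 => ?_)
    (fun m n q hmn h2 h3 h4 => ?_) (fun J r hr => ?_)
  · have h3 : fmem (a n.1) Z q := (ht _ _ n.2).2.2.1.mono h2.1
    cases e with
    | true =>
      refine ⟨h3, ?_⟩
      have := fmem_orb (x := x) H.one_mem ⟨n, h2.2⟩ (q := q) (by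
        rw [inv_one, one_smul]; exact h2.1)
      rwa [act_one] at this
    | false =>
      refine ⟨h3, fun u hu h4 => ?_⟩
      obtain ⟨r, hr, γ, hγ, m, h5, h6⟩ := orb_cases h4
      refine key2 m.1 n (fun h7 => ?_) γ hγ r (hr.trans (hu.trans h2.1)) h5 h6
      have h8 := m.2
      rw [h7, h2.2] at h8
      cases h8
  · refine key2 n m hmn.symm 1 H.one_mem q h2.1 (by rw [inv_one, one_smul]; exact h3.1) ?_
    rwa [act_one]
  · choose u hu using fun k : ℕ => hσ (r, e, k)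
    have h2 : Function.Injective u := fun k k' h3 => by
      have := (hu k).symm.trans (h3 ▸ hu k')
      simpa using this
    obtain ⟨k, hk⟩ := (Set.infinite_range_of_injective h2).exists_notMem_finset
      (J.image Subtype.val)
    obtain ⟨⟨k, rfl⟩, hk⟩ := hk
    have h3 : (σ (u k)).1 ≤ p := by rw [hu]; exact hr
    refine ⟨s (u k), ?_, ⟨u k, h3⟩, fun h4 => hk (Finset.mem_image_of_mem _ h4), le_rfl, ?_⟩
    · have := (ht (L (u k)) _ h3).1
      rw [hu] at this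
      simpa [s, hu] using this
    · change (σ (u k)).2.1 = e
      rw [hu]

/-! ### Transfer to the model -/

namespace Mod

variable {F : NF Γ} {b : ℕ → Nm P} (M : Mod F b)

theorem finite_and {I : Type} (J : Finset I) (S : I → P → Prop)
    (hS : ∀ i p q, S i p → q ≤ p → S i q) (h : ∀ i ∈ J, ∃ p ∈ M.G, S i p) :
    ∃ p ∈ M.G, ∀ i ∈ J, S i p := by
  classical
  induction J using Finset.induction_on with
  | empty => exact M.ne.imp fun p hp => ⟨hp, by simp⟩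
  | insert a J _ ih =>
    obtain ⟨p, hp, h1⟩ := ih fun i hi => h i (Finset.mem_insert_of_mem hi)
    obtain ⟨q, hq, h2⟩ := h a (Finset.mem_insert_self a J)
    obtain ⟨r, hr, h3, h4⟩ := M.dir p hp q hq
    refine ⟨r, hr, fun i hi => ?_⟩
    rcases Finset.mem_insert.1 hi with rfl | hi
    · exact hS _ _ _ h2 h4
    · exact hS _ _ _ (h1 i hi) h3

theorem fne_of_ne {k l : ℕ} (h : M.cl k ≠ M.cl l) : ∃ p ∈ M.G, fne (M.e k) (M.e l) p :=
  (M.truth (.neg (.eq 0 1)) (cons k fun _ => l)).1 h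

variable {M}

theorem not_GE {x y : Nm P} {p : P} (hp : p ∈ M.G) (h : fne x y p) : ¬ M.GE x y := by
  rintro ⟨q, hq, h1⟩
  obtain ⟨r, -, h2, h3⟩ := M.dir p hp q hq
  exact h r h2 (h1.mono h3)

theorem not_GM {x y : Nm P} {p : P} (hp : p ∈ M.G) (h : fnm x y p) : ¬ M.GM x y := by
  rintro ⟨q, hq, h1⟩
  obtain ⟨r, -, h2, h3⟩ := M.dir p hp q hq
  exact h r h2 (h1.mono h3)

theorem finite_of {k : ℕ} {q : P} (hq : q ∈ M.G) (l : List (Nm P))
    (h : ∀ r ≤ q, ∀ z, HS F z → fmem z (M.e k) r → ∃ y ∈ l, ∃ s ≤ r, feq z y s) :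
    {x | M.E x (M.cl k)}.Finite := by
  classical
  by_contra h1
  obtain ⟨J, h2, h3⟩ := Set.Infinite.exists_subset_card_eq h1 (l.length + 1)
  choose f hf using M.cl_surj
  obtain ⟨p, hp, h4⟩ := M.finite_and J (fun x p => fmem (M.e (f x)) (M.e k) p)
    (fun _ _ _ => fmem.mono) fun x hx => M.cl_mem.1 (by rw [hf]; exact h2 hx)
  obtain ⟨p', hp', h5⟩ := M.finite_and (J ×ˢ J) (fun x p => x.1 ≠ x.2 →
      fne (M.e (f x.1)) (M.e (f x.2)) p) (fun _ _ _ h h' h'' => (h h'').mono h') fun x _ => by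
    by_cases hx : x.1 = x.2
    · exact ⟨p, hp, fun h => absurd hx h⟩
    · obtain ⟨r, hr, h5⟩ := M.fne_of_ne (k := f x.1) (l := f x.2) (by rwa [hf, hf])
      exact ⟨r, hr, fun _ => h5⟩
  obtain ⟨r, hr, h6, h7⟩ := M.dir p hp p' hp'
  obtain ⟨r', -, h8, h9⟩ := M.dir r hr q hq
  obtain ⟨s, hs, i, hi, j, hj, hij, h10⟩ := pigeon l J (fun x => M.e (f x)) r' (by omega)
    fun i hi t ht => by
      obtain ⟨y, hy, s, hs, h10⟩ := h t (ht.trans h9) _ (M.hs (f i))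
        ((h4 i hi).mono (ht.trans (h8.trans h6)))
      exact ⟨s, hs, y, hy, h10⟩
  exact h5 (i, j) (Finset.mem_product.2 ⟨hi, hj⟩) hij s (hs.trans (h8.trans h7)) h10

/-- Definable relations are forced. -/
theorem force_D2 (R : M.N → M.N → Prop) (hR : D2 M.str R) :
    ∃ φ : Fml, ∀ x y a c, M.Den x a → M.Den y c →
      (R a c ↔ ∃ p ∈ M.G, Force F φ (cons x (cons y M.e)) p) := by
  obtain ⟨φ, h⟩ := (hR (fun v => v 0) (fun v => v 1)).out
  refine ⟨φ.ren fun i => if i % 2 = 0 then (if i = 0 then 0 else 1) else i / 2 + 2, ?_⟩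
  rintro x y _ _ ⟨k, rfl, hk⟩ ⟨l, rfl, hl⟩
  have h1 := M.truth (φ.ren fun i => if i % 2 = 0 then (if i = 0 then 0 else 1) else i / 2 + 2)
    (cons k (cons l id))
  have h2 : R (M.cl k) (M.cl l) ↔ Sat M.E (φ.ren fun i => if i % 2 = 0 then
      (if i = 0 then 0 else 1) else i / 2 + 2) fun i => M.cl (cons k (cons l id) i) := by
    rw [sat_ren]
    refine (h (cons (M.cl k) fun _ => M.cl l)).trans ?_
    have : il (cons (M.cl k) fun _ => M.cl l) M.str.e = fun i => M.cl (cons k (cons l id)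
        (if i % 2 = 0 then (if i = 0 then 0 else 1) else i / 2 + 2)) := by
      funext i
      unfold il
      split_ifs with h2 h3
      · subst h3; rfl
      · obtain ⟨j, hj⟩ : ∃ j, i / 2 = j + 1 := ⟨i / 2 - 1, by omega⟩
        rw [hj]; rfl
      · rfl
    rw [this]
    rfl
  rw [h2, h1]
  obtain ⟨q, hq, h3, h4⟩ := M.and2 (fun _ _ => feq.mono) (fun _ _ => feq.mono) hk hl
  constructor
  · rintro ⟨p, hp, h5⟩
    obtain ⟨r, hr, h6, h7⟩ := M.dir p hp q hq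
    refine ⟨r, hr, force_congr (fun i _ => ?_) (h5.mono h6)⟩
    match i with
    | 0 => exact h3.mono h7
    | 1 => exact h4.mono h7
    | i + 2 => exact feq.refl _ _
  · rintro ⟨p, hp, h5⟩
    obtain ⟨r, hr, h6, h7⟩ := M.dir p hp q hq
    refine ⟨r, hr, force_congr (fun i _ => ?_) (h5.mono h6)⟩
    match i with
    | 0 => exact (h3.mono h7).symm
    | 1 => exact (h4.mono h7).symm
    | i + 2 => exact feq.refl _ _

end Mod

/-! ### Finite sets in well-founded models -/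

section fin

variable {N : Type} (S : Str N)

theorem ex_fin {s : Set N} (hs : s.Finite) : ∃ D, IsFin S.E D ∧ ∀ x, S.E x D ↔ x ∈ s := by
  induction s, hs using Set.Finite.induction_on with
  | empty =>
    obtain ⟨e, he⟩ := S.ex_empty
    exact ⟨e, S.fin_empty he, fun x => iff_of_false (he x) (by simp)⟩
  | insert _ _ ih =>
    rename_i a s _ _
    obtain ⟨D, h1, h2⟩ := ih
    obtain ⟨D', h3⟩ := S.ex_insert D a
    refine ⟨D', S.fin_insert h1 h3, fun x => ?_⟩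
    rw [h3, h2, Set.mem_insert_iff]
    exact or_comm

theorem isFin_iff (wf : WellFounded S.E) (a : N) : IsFin S.E a ↔ {x | S.E x a}.Finite := by
  constructor
  · rintro ⟨n, f, hn, hf⟩
    have h1 : ∀ n, IsNat S.E n → (∀ t, ¬ S.E t n) ∨ ∃ m, IsNat S.E m ∧ IsSucc S.E n m :=
      S.nat_ind (fun n => (∀ t, ¬ S.E t n) ∨ ∃ m, IsNat S.E m ∧ IsSucc S.E n m)
        (fun e he => Or.inl he) fun n s h1 _ h2 => Or.inr ⟨n, h1, h2⟩
    have h2 : ∀ n, IsNat S.E n → {x | S.E x n}.Finite := fun n => by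
      induction n using wf.induction with
      | _ n ih =>
        intro hn
        rcases h1 n hn with h2 | ⟨m, h2, h3⟩
        · exact Set.finite_empty.subset fun t ht => h2 t ht
        · exact ((ih m ((h3 m).2 (Or.inr rfl)) h2).insert m).subset fun t ht =>
            ((h3 t).1 ht).symm
    have h3 : ∀ l, ∃ y, ∀ z, S.E l n → Rel S.E f l z → z = y := fun l => by
      by_cases hl : S.E l n
      · obtain ⟨y, -, hy⟩ := hf.2.1 l hl
        exact ⟨y, fun z _ => hy z⟩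
      · exact ⟨l, fun _ h => absurd h hl⟩
    choose g hg using h3
    refine ((h2 n hn).image g).subset fun y hy => ?_
    obtain ⟨l, hl, -⟩ := hf.2.2 y hy
    exact ⟨l, (S.bij_rel hf hl).1, (hg l y (S.bij_rel hf hl).1 hl).symm⟩
  · intro h
    obtain ⟨D, h1, h2⟩ := ex_fin S h
    rwa [S.zf.ext a D fun x => (h2 x).symm]

end fin

end Pool.Agent.H982Z.Sym
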