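import Pool.Agent.H982Z.Sym.Force

/-!
# The countable symmetric model
-/

set_option autoImplicit false

namespace Pool.Agent.H982Z.Sym

open Pool.Agent.H164Z.Bspt

universe u

theorem exists_generic {P : Type} [Preorder P] {T : Type u} (cond : T → P) (t₀ : T)
    {J : Type} [Countable J] [Nonempty J] (R : J → List T → T → Prop)
    (h : ∀ j l p, ∃ t, cond t ≤ p ∧ R j l t) :
    ∃ e : ℕ → T, Antitone (fun k => cond (e k)) ∧ cond (e 0) ≤ cond t₀ ∧
      ∀ j (l : List ℕ), ∃ k, R j (l.map e) (e k) := by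
  classical
  obtain ⟨s, hs⟩ := exists_surjective_nat (J × List ℕ)
  choose g hg1 hg2 using h
  let step : ∀ k : ℕ, (∀ i, i < k → T) → T := fun k w =>
    g (s k.unpair.1).1 ((s k.unpair.1).2.map fun i => if hi : i < k then w i hi else t₀)
      (cond (if hk : k - 1 < k then w (k - 1) hk else t₀))
  let e : ℕ → T := (Nat.lt_wfRel.wf).fix step
  have he : ∀ k, e k = step k fun i _ => e i := fun k => WellFounded.fix_eq _ step k
  refine ⟨e, antitone_nat_of_succ_le fun k => ?_, ?_, fun j l => ?_⟩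
  · rw [he (k + 1)]
    refine (hg1 _ _ _).trans ?_
    rw [dif_pos (by omega)]
    exact le_rfl
  · rw [he 0]
    refine (hg1 _ _ _).trans ?_
    rw [dif_neg (by omega)]
  · obtain ⟨a, ha⟩ := hs (j, l)
    refine ⟨Nat.pair a (l.sum + 1), ?_⟩
    have h1 := hg2 (s (Nat.pair a (l.sum + 1)).unpair.1).1
      ((s (Nat.pair a (l.sum + 1)).unpair.1).2.map fun i =>
        if i < Nat.pair a (l.sum + 1) then e i else t₀)
      (cond (if Nat.pair a (l.sum + 1) - 1 < Nat.pair a (l.sum + 1) then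
        e (Nat.pair a (l.sum + 1) - 1) else t₀))
    rw [he (Nat.pair a (l.sum + 1))]
    simp only [step, dite_eq_ite]
    simp only [Nat.unpair_pair, ha] at h1 ⊢
    have h2 : (l.map fun i => if i < Nat.pair a (l.sum + 1) then e i else t₀) = l.map e := by
      refine List.map_congr_left fun i hi => if_pos ?_
      have h3 := List.le_sum_of_mem hi
      have h4 := Nat.right_le_pair a (l.sum + 1)
      omega
    rw [h2] at h1 ⊢
    exact h1

variable {P : Type} [Preorder P]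
variable {Γ : Type} [Group Γ] [MulAction Γ P] [CovariantClass Γ P (· • ·) (· ≤ ·)]

/-- A countable family of names with a filter that is generic for it. -/
structure Mod (F : NF Γ) (b : ℕ → Nm P) where
  /-- the names -/
  e : ℕ → Nm P
  /-- the filter -/
  G : Set P
  hs : ∀ k, HS F (e k)
  base : ∀ n, ∃ k, e k = b n
  up : ∀ p ∈ G, ∀ q, p ≤ q → q ∈ G
  dir : ∀ p ∈ G, ∀ q ∈ G, ∃ r ∈ G, r ≤ p ∧ r ≤ q
  ne : G.Nonempty
  dec : ∀ φ, ∃ p ∈ G, Force F φ e p ∨ Force F (.neg φ) e p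
  wit : ∀ φ, ∃ p ∈ G, Force F (.all φ) e p ∨ ∃ k, Force F (.neg φ) (cons (e k) e) p
  child : ∀ k l, ∃ p ∈ G, (∀ q ≤ p, ¬ fmem (e k) (e l) q) ∨
    ∃ j, p ∈ (e l).c j ∧ feq (e k) ((e l).A j) p ∧ ∃ m, e m = (e l).A j

theorem exists_mod (F : NF Γ) (b : ℕ → Nm P) (hb : ∀ n, HS F (b n)) (p₀ : P)
    (X : ℕ → List (Nm P) → P → Prop) (hX : ∀ n l p, ∃ q ≤ p, X n l q) :
    ∃ M : Mod F b, p₀ ∈ M.G ∧ ∀ n (l : List ℕ), ∃ q ∈ M.G, X n (l.map M.e) q := by
  classical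
  let T := {x : Nm P // HS F x} × P
  let lv : List T → ℕ → Nm P := fun l i => (l.getD i (⟨b 0, hb 0⟩, p₀)).1.1
  let R : (ℕ ⊕ Fml) ⊕ (Fml ⊕ Unit) ⊕ ℕ → List T → T → Prop := fun j l t => match j with
    | .inl (.inl n) => t.1.1 = b n
    | .inl (.inr φ) => Force F φ (lv l) t.2 ∨ Force F (.neg φ) (lv l) t.2
    | .inr (.inl (.inl φ)) => Force F (.all φ) (lv l) t.2 ∨
        Force F (.neg φ) (cons t.1.1 (lv l)) t.2
    | .inr (.inl (.inr _)) => (∀ q ≤ t.2, ¬ fmem (lv l 0) (lv l 1) q) ∨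
        ∃ j, t.2 ∈ (lv l 1).c j ∧ feq (lv l 0) ((lv l 1).A j) t.2 ∧ t.1.1 = (lv l 1).A j
    | .inr (.inr n) => X n (l.map fun t => t.1.1) t.2
  have hlv : ∀ l i, HS F (lv l i) := fun l i => (l.getD i (⟨b 0, hb 0⟩, p₀)).1.2
  obtain ⟨e, h1, h0, h2⟩ := exists_generic (T := T) Prod.snd (⟨b 0, hb 0⟩, p₀) R (by
    rintro ((n | φ) | (φ | u) | n) l p
    · exact ⟨(⟨b n, hb n⟩, p), le_rfl, rfl⟩
    · by_cases h : Force F φ (lv l) p
      · exact ⟨(⟨b 0, hb 0⟩, p), le_rfl, Or.inl h⟩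
      · obtain ⟨q, hq, h3⟩ := exists_force_neg h
        exact ⟨(⟨b 0, hb 0⟩, q), hq, Or.inr h3⟩
    · by_cases h : Force F (.all φ) (lv l) p
      · exact ⟨(⟨b 0, hb 0⟩, p), le_rfl, Or.inl h⟩
      · obtain ⟨x, hx⟩ := not_forall.1 h
        obtain ⟨hx, h3⟩ := Classical.not_imp.1 hx
        obtain ⟨q, hq, h4⟩ := exists_force_neg h3
        exact ⟨(⟨x, hx⟩, q), hq, Or.inr h4⟩
    · by_cases h : ∀ q ≤ p, ¬ fmem (lv l 0) (lv l 1) q
      · exact ⟨(⟨b 0, hb 0⟩, p), le_rfl, Or.inl h⟩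
      · push Not at h
        obtain ⟨q, hq, h3⟩ := h
        obtain ⟨r, hr, j, h4, h5⟩ := h3 q le_rfl
        exact ⟨(⟨_, (hlv l 1).child j⟩, r), hr.trans hq, Or.inr ⟨j, h4, h5, rfl⟩⟩
    · obtain ⟨q, hq, h3⟩ := hX n (l.map fun t => t.1.1) p
      exact ⟨(⟨b 0, hb 0⟩, q), hq, h3⟩)
  have hr : ∀ n i, i < n → lv ((List.range n).map e) i = (e i).1.1 := fun n i hi => by
    simp [lv, List.getD_eq_getElem?_getD, hi]
  have hG : ∀ k, (e k).2 ∈ {q | ∃ k, (e k).2 ≤ q} := fun k => ⟨k, le_rfl⟩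
  refine ⟨⟨fun k => (e k).1.1, {q | ∃ k, (e k).2 ≤ q}, fun k => (e k).1.2, fun n => ?_,
    fun p ⟨k, hk⟩ q hq => ⟨k, hk.trans hq⟩, fun p ⟨k, hk⟩ q ⟨l, hl⟩ => ⟨_, hG (max k l),
      (h1 (le_max_left k l)).trans hk, (h1 (le_max_right k l)).trans hl⟩, ⟨_, hG 0⟩,
    fun φ => ?_, fun φ => ?_, fun k l => ?_⟩, ⟨0, h0⟩, fun n l => ?_⟩
  · exact h2 (.inl (.inl n)) []
  · obtain ⟨k, hk⟩ := h2 (.inl (.inr φ)) (List.range (bd φ))
    refine ⟨_, hG k, hk.imp (force_congr fun i hi => ?_) (force_congr fun i hi => ?_)⟩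
    · rw [hr (bd φ) i hi]; exact feq.refl _ _
    · rw [hr (bd φ) i hi]; exact feq.refl _ _
  · obtain ⟨k, hk⟩ := h2 (.inr (.inl (.inl φ))) (List.range (bd φ))
    refine ⟨_, hG k, hk.imp (force_congr fun i hi => ?_)
      (fun h => ⟨k, force_congr (fun i hi => ?_) h⟩)⟩
    · rw [hr (bd φ) i hi]; exact feq.refl _ _
    · cases i with
      | zero => exact feq.refl _ _
      | succ i =>
        change feq (lv _ i) (e i).1.1 _
        rw [hr _ i (by simp only [bd] at hi; omega)]; exact feq.refl _ _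
  · obtain ⟨m, hm⟩ := h2 (.inr (.inl (.inr ()))) [k, l]
    refine ⟨_, hG m, hm.imp id ?_⟩
    rintro ⟨j, h3, h4, h5⟩
    exact ⟨j, h3, h4, m, h5⟩
  · obtain ⟨m, hm⟩ := h2 (.inr (.inr n)) l
    refine ⟨_, hG m, ?_⟩
    have : l.map (fun k => (e k).1.1) = (l.map e).map fun t => t.1.1 := by simp
    rw [this]
    exact hm

namespace Mod

variable {F : NF Γ} {b : ℕ → Nm P} (M : Mod F b)

theorem and2 {S T : P → Prop} (hS : ∀ p q, S p → q ≤ p → S q) (hT : ∀ p q, T p → q ≤ p → T q)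
    (h : ∃ p ∈ M.G, S p) (h' : ∃ p ∈ M.G, T p) : ∃ p ∈ M.G, S p ∧ T p := by
  obtain ⟨p, hp, h1⟩ := h
  obtain ⟨q, hq, h2⟩ := h'
  obtain ⟨r, hr, h3, h4⟩ := M.dir p hp q hq
  exact ⟨r, hr, hS _ _ h1 h3, hT _ _ h2 h4⟩

/-- equality in the generic -/
def GE (x y : Nm P) : Prop := ∃ p ∈ M.G, feq x y p

/-- membership in the generic -/
def GM (x y : Nm P) : Prop := ∃ p ∈ M.G, fmem x y p

variable {M}

theorem GE.of {x y : Nm P} (h : ∀ p, feq x y p) : M.GE x y := by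
  obtain ⟨p, hp⟩ := M.ne
  exact ⟨p, hp, h p⟩

theorem GE.refl (x : Nm P) : M.GE x x := GE.of (feq.refl x)

theorem GE.symm {x y : Nm P} (h : M.GE x y) : M.GE y x := by
  obtain ⟨p, hp, h⟩ := h
  exact ⟨p, hp, h.symm⟩

theorem GE.trans {x y z : Nm P} (h : M.GE x y) (h' : M.GE y z) : M.GE x z := by
  obtain ⟨p, hp, h1, h2⟩ := M.and2 (fun _ _ => feq.mono) (fun _ _ => feq.mono) h h'
  exact ⟨p, hp, h1.trans h2⟩

theorem GM.congr {x y x' y' : Nm P} (h : M.GM x y) (hx : M.GE x x') (hy : M.GE y y') :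
    M.GM x' y' := by
  obtain ⟨p, hp, h1, h2⟩ := M.and2 (fun _ _ => fmem.mono) (fun _ _ => feq.mono) h hx
  obtain ⟨q, hq, h3, h4⟩ := M.and2 (fun _ _ => fmem.mono) (fun _ _ => feq.mono)
    ⟨p, hp, h1.left h2⟩ hy
  exact ⟨q, hq, h3.right h4⟩

variable (M)

/-- the setoid on indices -/
def st : Setoid ℕ := ⟨fun k l => M.GE (M.e k) (M.e l), fun _ => GE.refl _, GE.symm, GE.trans⟩

/-- The model. -/
def N : Type := Quotient M.st

/-- The class of an index. -/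
def cl (k : ℕ) : M.N := Quotient.mk M.st k

/-- Membership of the model. -/
def E : M.N → M.N → Prop :=
  Quotient.lift₂ (s₁ := M.st) (s₂ := M.st) (fun k l => M.GM (M.e k) (M.e l))
    fun _ _ _ _ h h' => propext ⟨fun h1 => h1.congr h h', fun h1 => h1.congr (GE.symm h)
      (GE.symm h')⟩

theorem cl_surj : Function.Surjective M.cl := Quotient.mk_surjective

theorem cl_eq {k l : ℕ} : M.cl k = M.cl l ↔ M.GE (M.e k) (M.e l) := Quotient.eq

theorem cl_mem {k l : ℕ} : M.E (M.cl k) (M.cl l) ↔ M.GM (M.e k) (M.e l) := Iff.rfl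

theorem truth (φ : Fml) : ∀ f : ℕ → ℕ,
    Sat M.E φ (fun i => M.cl (f i)) ↔ ∃ p ∈ M.G, Force F φ (fun i => M.e (f i)) p := by
  induction φ with
  | mem i j => intro f; exact M.cl_mem
  | eq i j => intro f; exact M.cl_eq
  | neg φ ih =>
    intro f
    change ¬ _ ↔ _
    rw [ih]
    constructor
    · intro h
      obtain ⟨p, hp, h1 | h1⟩ := M.dec (φ.ren f)
      · exact absurd ⟨p, hp, (force_ren _ _ _ _).1 h1⟩ h
      · exact ⟨p, hp, (force_ren (.neg φ) _ _ _).1 h1⟩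
    · rintro ⟨p, hp, h1⟩ ⟨q, hq, h2⟩
      obtain ⟨r, -, h3, h4⟩ := M.dir p hp q hq
      exact h1 r h3 (h2.mono h4)
  | and φ ψ ih ih' =>
    intro f
    change _ ∧ _ ↔ _
    rw [ih, ih']
    exact ⟨fun h => M.and2 (fun _ _ => Force.mono) (fun _ _ => Force.mono) h.1 h.2,
      fun ⟨p, hp, h⟩ => ⟨⟨p, hp, h.1⟩, ⟨p, hp, h.2⟩⟩⟩
  | all φ ih =>
    intro f
    have e1 : ∀ k, (fun i => M.cl (cons k f i)) = cons (M.cl k) (fun i => M.cl (f i)) :=
      fun k => by funext i; cases i <;> rfl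
    have e2 : ∀ k, (fun i => M.e (cons k f i)) = cons (M.e k) (fun i => M.e (f i)) :=
      fun k => by funext i; cases i <;> rfl
    constructor
    · intro h
      obtain ⟨p, hp, h1 | ⟨k, h1⟩⟩ := M.wit (φ.ren (liftR f))
      · exact ⟨p, hp, (force_ren (.all φ) _ _ _).1 h1⟩
      · have h2 := h (M.cl k)
        rw [← e1, ih, e2] at h2
        obtain ⟨q, hq, h2⟩ := h2
        obtain ⟨r, -, h3, h4⟩ := M.dir p hp q hq
        refine absurd ?_ (h1 r h3)
        rw [force_ren]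
        have : (fun i => cons (M.e k) M.e (liftR f i)) = cons (M.e k) (fun i => M.e (f i)) := by
          funext i; cases i <;> rfl
        rw [this]
        exact h2.mono h4
    · rintro ⟨p, hp, h⟩ x
      obtain ⟨k, rfl⟩ := M.cl_surj x
      rw [← e1, ih, e2]
      exact ⟨p, hp, h _ (M.hs k)⟩

theorem exists_val (v : ℕ → M.N) : ∃ f : ℕ → ℕ, v = fun i => M.cl (f i) := by
  choose f hf using fun i => M.cl_surj (v i)
  exact ⟨f, funext fun i => (hf i).symm⟩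

theorem set_of_covers {ψ : Fml} {f : ℕ → ℕ} {ι : Type} {A : ι → Nm P}
    (h : Covers F ψ (fun i => M.e (f i)) A) (hA : ∀ i, HS F (A i)) :
    ∃ B, ∀ x, M.E x B ↔ Sat M.E ψ (cons x fun i => M.cl (f i)) := by
  obtain ⟨p, hp⟩ := M.ne
  have h1 := (M.truth _ f).2 ⟨p, hp, force_set h hA (fun i => M.hs _) p⟩
  rw [sat_ex] at h1
  obtain ⟨B, hB⟩ := h1
  refine ⟨B, fun x => ?_⟩
  have h2 := (sat_iff _ _ _ _).1 (hB x)
  rw [sat_ren] at h2
  have : (fun i => cons x (cons B fun i => M.cl (f i)) (liftR Nat.succ i)) =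
      cons x fun i => M.cl (f i) := by
    funext i; cases i <;> rfl
  rw [this] at h2
  exact h2

theorem mem_cases {x : M.N} {l : ℕ} (h : M.E x (M.cl l)) :
    ∃ j m, M.e m = (M.e l).A j ∧ x = M.cl m ∧ ∃ p ∈ M.G, p ∈ (M.e l).c j := by
  obtain ⟨k, rfl⟩ := M.cl_surj x
  obtain ⟨q, hq, h⟩ := h
  obtain ⟨p, hp, h1 | ⟨j, h1, h2, m, h3⟩⟩ := M.child k l
  · obtain ⟨r, -, h3, h4⟩ := M.dir p hp q hq
    exact absurd (h.mono h4) (h1 r h3)
  · exact ⟨j, m, h3, M.cl_eq.2 ⟨p, hp, h3 ▸ h2⟩, p, hp, h1⟩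

theorem wf : WellFounded M.E := by
  have h : ∀ y : Nm P, ∀ l, M.e l = y → Acc M.E (M.cl l) := by
    intro y
    induction y with
    | mk ι A c ih =>
      intro l hl
      refine ⟨_, fun x hx => ?_⟩
      obtain ⟨j, m, h1, rfl, -⟩ := M.mem_cases hx
      revert j
      rw [hl]
      intro j h1
      exact ih j m h1
  refine ⟨fun x => ?_⟩
  obtain ⟨k, rfl⟩ := M.cl_surj x
  exact h _ k rfl

theorem ext (x y : M.N) (h : ∀ z, M.E z x ↔ M.E z y) : x = y := by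
  obtain ⟨k, rfl⟩ := M.cl_surj x
  obtain ⟨l, rfl⟩ := M.cl_surj y
  obtain ⟨p, hp, h1⟩ := (M.truth (.all (fIff (.mem 0 1) (.mem 0 2))) (cons k fun _ => l)).1
    fun z => (sat_iff _ _ _ _).2 (h z)
  refine M.cl_eq.2 ⟨p, hp, feq_of_mem (fun i q hq hi => ?_) (fun i q hq hi => ?_)⟩
  · exact (force_iff.1 (h1 _ ((M.hs k).child i)) q hq).1 (fmem_child _ i hi)
  · exact (force_iff.1 (h1 _ ((M.hs l).child i)) q hq).2 (fmem_child _ i hi)

end Mod

/-! ### Natural numbers -/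

/-- Names of the natural numbers. -/
def natN : ℕ → Nm P
  | 0 => ⟨PEmpty, PEmpty.elim, PEmpty.elim⟩
  | n + 1 => ⟨Option (natN n).ι, fun o => o.elim (natN n) (natN n).A, fun _ => ⊤⟩

theorem natN_c (n : ℕ) (i : (natN (P := P) n).ι) : (natN n).c i = ⊤ := by
  cases n with
  | zero => exact PEmpty.elim i
  | succ n => rfl

theorem fmem_natN_succ (n : ℕ) (z : Nm P) (p : P) :
    fmem z (natN (n + 1)) p ↔ Dn (fun r => fmem z (natN n) r ∨ feq z (natN n) r) p := by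
  constructor
  · intro h
    refine Dn.imp' h fun r _ ⟨j, _, h1⟩ => ?_
    cases j with
    | none => exact Or.inr h1
    | some j => exact Or.inl ((fmem_child _ j (by rw [natN_c]; trivial)).left (feq.symm h1))
  · intro h
    refine Dn.imp h fun r _ h1 => ?_
    rcases h1 with h1 | h1
    · exact Dn.imp' h1 fun s _ ⟨j, _, h2⟩ => ⟨some j, trivial, h2⟩
    · exact Dn.of fun s hs => ⟨none, trivial, h1.mono hs⟩

theorem not_fmem_natN_zero (z : Nm P) (p : P) : ¬ fmem z (natN 0) p := fun h => by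
  obtain ⟨r, -, j, -⟩ := h p le_rfl
  exact PEmpty.elim j

/-- Names all of whose conditions are trivial. -/
def Chk : Nm P → Prop
  | ⟨_, A, c⟩ => ∀ i, c i = ⊤ ∧ Chk (A i)

theorem Chk.act {x : Nm P} (h : Chk x) (π : Γ) : act π x = x := by
  induction x with
  | mk ι A c ih =>
    simp only [Sym.act]
    congr 1
    · funext i; exact ih i (h i).2
    · funext i
      rw [(h i).1]
      ext q
      exact iff_of_true trivial trivial

theorem Chk.hs {x : Nm P} (h : Chk x) (F : NF Γ) : HS F x := by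
  induction x with
  | mk ι A c ih =>
    obtain ⟨H, hH⟩ := F.ne
    refine ⟨⟨H, hH, fun π _ p => ?_⟩, fun i => ih i (h i).2⟩
    rw [h.act π]
    exact feq.refl _ _

theorem chk_def (x : Nm P) : Chk x ↔ ∀ i, x.c i = ⊤ ∧ Chk (x.A i) := by
  cases x; rfl

theorem chk_natN (n : ℕ) : Chk (natN (P := P) n) := by
  induction n with
  | zero => exact fun i => PEmpty.elim i
  | succ n ih =>
    intro i
    cases i with
    | none => exact ⟨rfl, ih⟩
    | some i => exact ⟨rfl, ((chk_def _).1 ih i).2⟩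

/-- The name of the set of natural numbers. -/
def omN : Nm P := ⟨ℕ, natN, fun _ => ⊤⟩

theorem chk_omN : Chk (omN (P := P)) := fun n => ⟨rfl, chk_natN n⟩

theorem force_inf (F : NF Γ) (v : ℕ → Nm P) (p : P) :
    Force F (fEx (.and (fEx (.and (.mem 0 1) (.all (.neg (.mem 0 1)))))
      (.all (fImp (.mem 0 1) (fEx (.and (.mem 0 2)
        (.all (fIff (.mem 0 1) (fOr (.mem 0 2) (.eq 0 2)))))))))) v p := by
  refine force_ex.2 (Dn.of fun q _ => ⟨omN, chk_omN.hs F, ?_, fun x hx => ?_⟩)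
  · refine force_ex.2 (Dn.of fun r _ => ⟨natN 0, (chk_natN 0).hs F, ?_, fun z _ s _ => ?_⟩)
    · exact fmem_child omN (0 : ℕ) trivial
    · exact not_fmem_natN_zero z s
  · refine force_imp.2 fun r _ h => force_ex.2 ?_
    refine Dn.imp' (show fmem x omN r from h) fun s _ ⟨n, _, h1⟩ => ?_
    refine ⟨natN (Nat.succ n), (chk_natN _).hs F, fmem_child omN (Nat.succ n) trivial,
      fun z _ => force_iff.2 fun t ht => ?_⟩
    rw [force_or]
    refine (fmem_natN_succ n z t).trans ⟨fun h2 => h2.imp' fun u hu h3 => ?_,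
      fun h2 => h2.imp' fun u hu h3 => ?_⟩
    · have h4 : feq (natN n) x u := (feq.mono h1 (hu.trans ht)).symm
      exact h3.imp (fun h5 => h5.right h4) (fun h5 => h5.trans h4)
    · have h4 : feq x (natN n) u := feq.mono h1 (hu.trans ht)
      exact h3.imp (fun h5 => fmem.right h5 h4) (fun h5 => feq.trans h5 h4)

namespace Mod

variable {F : NF Γ} {b : ℕ → Nm P} (M : Mod F b)

theorem zf : IsZF M.E where
  ext := M.ext
  found := fun x ⟨y, hy⟩ => by
    obtain ⟨z, h1, h2⟩ := M.wf.has_min {y | M.E y x} ⟨y, hy⟩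
    exact ⟨z, h1, fun w hw h3 => h2 w h3 hw⟩
  pair := fun x y => by
    obtain ⟨k, rfl⟩ := M.cl_surj x
    obtain ⟨l, rfl⟩ := M.cl_surj y
    obtain ⟨B, hB⟩ := M.set_of_covers (f := cons k fun _ => l) (covers_pair _ 0 1)
      (fun b => by cases b <;> exact M.hs _)
    exact ⟨B, fun z => (hB z).trans (sat_or _ _ _ _)⟩
  union := fun x => by
    obtain ⟨k, rfl⟩ := M.cl_surj x
    obtain ⟨B, hB⟩ := M.set_of_covers (f := fun _ => k) (covers_union _ 0)
      (fun a => ((M.hs _).child _).child _)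
    exact ⟨B, fun z => (hB z).trans (sat_ex _ _ _)⟩
  power := fun x => by
    obtain ⟨k, rfl⟩ := M.cl_surj x
    obtain ⟨B, hB⟩ := M.set_of_covers (f := fun _ => k) (covers_power _ (fun _ => M.hs _) 0)
      (fun a => a.2)
    exact ⟨B, fun z => (hB z).trans (forall_congr' fun t => sat_imp _ _ _ _)⟩
  inf := by
    obtain ⟨p, hp⟩ := M.ne
    have h := (M.truth _ id).2 ⟨p, hp, force_inf F _ p⟩
    rw [sat_ex] at h
    obtain ⟨I, h1, h2⟩ := h
    rw [sat_ex] at h1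
    refine ⟨I, h1, fun x hx => ?_⟩
    obtain ⟨s, h3, h4⟩ := (sat_ex _ _ _).1 ((sat_imp _ _ _ _).1 (h2 x) hx)
    exact ⟨s, h3, fun t => ((sat_iff _ _ _ _).1 (h4 t)).trans (sat_or _ _ _ _)⟩
  sep := fun φ v A => by
    obtain ⟨f, rfl⟩ := M.exists_val v
    obtain ⟨k, rfl⟩ := M.cl_surj A
    obtain ⟨B, hB⟩ := M.set_of_covers (f := cons k f)
      (covers_sep (φ.ren (liftR Nat.succ)) _ 0) (fun a => (M.hs _).child _)
    refine ⟨B, fun z => (hB z).trans (and_congr Iff.rfl ?_)⟩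
    rw [sat_ren]
    congr! 1
    funext i; cases i <;> rfl
  repl := fun φ v A h => by
    obtain ⟨f, rfl⟩ := M.exists_val v
    obtain ⟨k, rfl⟩ := M.cl_surj A
    obtain ⟨ι, A, h1, h2⟩ := exists_covers_repl (F := F) (φ.ren (liftR (liftR Nat.succ)))
      (fun i => M.e (cons k f i)) 0
    obtain ⟨B, hB⟩ := M.set_of_covers h2 h1
    have e1 : ∀ x y, Sat M.E (φ.ren (liftR (liftR Nat.succ)))
        (cons y (cons x fun i => M.cl (cons k f i))) ↔
        Sat M.E φ (cons y (cons x fun i => M.cl (f i))) := fun x y => by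
      rw [sat_ren]
      congr! 1
      funext i
      match i with
      | 0 => rfl
      | 1 => rfl
      | i + 2 => rfl
    refine ⟨B, fun y => (hB y).trans ((sat_fRepl _ _ _ _ _).trans (exists_congr fun x =>
      and_congr_right fun hx => ?_))⟩
    simp only [e1]
    exact ⟨fun h3 => h3.1, fun h3 => ⟨h3, fun y' h4 => (h x hx).unique h4 h3⟩⟩

/-- The model with its enumeration. -/
def str : Str M.N := ⟨M.E, M.cl, M.cl_surj, M.zf⟩

/-- The name `x` denotes `a`. -/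
def Den (x : Nm P) (a : M.N) : Prop := ∃ k, M.cl k = a ∧ M.GE (M.e k) x

variable {M}

theorem Den.cl (k : ℕ) : M.Den (M.e k) (M.cl k) := ⟨k, rfl, GE.refl _⟩

theorem Den.mem_iff {x y : Nm P} {a c : M.N} (h : M.Den x a) (h' : M.Den y c) :
    M.E a c ↔ M.GM x y := by
  obtain ⟨k, rfl, h⟩ := h
  obtain ⟨l, rfl, h'⟩ := h'
  exact ⟨fun h1 => GM.congr h1 h h', fun h1 => h1.congr h.symm h'.symm⟩

theorem Den.eq_iff {x y : Nm P} {a c : M.N} (h : M.Den x a) (h' : M.Den y c) :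
    a = c ↔ M.GE x y := by
  obtain ⟨k, rfl, h⟩ := h
  obtain ⟨l, rfl, h'⟩ := h'
  rw [M.cl_eq]
  exact ⟨fun h1 => h.symm.trans (h1.trans h'), fun h1 => h.trans (h1.trans h'.symm)⟩

theorem Den.congr {x y : Nm P} {a : M.N} (h : M.Den x a) (h' : M.GE x y) : M.Den y a := by
  obtain ⟨k, rfl, h⟩ := h
  exact ⟨k, rfl, h.trans h'⟩

variable (M)

theorem exists_den (a : M.N) : ∃ x, HS F x ∧ M.Den x a := by
  obtain ⟨k, rfl⟩ := M.cl_surj a
  exact ⟨_, M.hs k, Den.cl k⟩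

theorem exists_base (n : ℕ) : ∃ a, M.Den (b n) a ∧ ∀ x, M.E x a →
    ∃ j, M.Den ((b n).A j) x ∧ ∃ p ∈ M.G, p ∈ (b n).c j := by
  obtain ⟨k, hk⟩ := M.base n
  rw [← hk]
  refine ⟨_, Den.cl k, fun x hx => ?_⟩
  obtain ⟨j, m, h1, rfl, h2⟩ := M.mem_cases hx
  exact ⟨j, h1 ▸ Den.cl m, h2⟩

end Mod

end Pool.Agent.H982Z.Sym
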