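import Pool.Agent.H164Z.BsptZF

/-!
# Names, forcing of atomic formulas, automorphisms, hereditarily symmetric names
-/

set_option autoImplicit false

namespace Pool.Agent.H982Z.Sym

open Pool.Agent.H164Z.Bspt

/-- Names for a notion of forcing `P`. -/
inductive Nm (P : Type) [Preorder P] : Type 1
  | mk (ι : Type) (A : ι → Nm P) (c : ι → LowerSet P) : Nm P

variable {P : Type} [Preorder P]

namespace Nm

/-- index type -/
def ι : Nm P → Type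
  | ⟨ι, _, _⟩ => ι

/-- children -/
def A : (x : Nm P) → x.ι → Nm P
  | ⟨_, A, _⟩ => A

/-- conditions -/
def c : (x : Nm P) → x.ι → LowerSet P
  | ⟨_, _, c⟩ => c

end Nm

/-- Density below `p`. -/
def Dn (S : P → Prop) (p : P) : Prop := ∀ q ≤ p, ∃ r ≤ q, S r

theorem Dn.mono {S : P → Prop} {p q : P} (h : Dn S p) (hq : q ≤ p) : Dn S q :=
  fun r hr => h r (hr.trans hq)

theorem Dn.dn {S : P → Prop} {p : P} (h : Dn (Dn S) p) : Dn S p := fun q hq => by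
  obtain ⟨r, hr, h1⟩ := h q hq
  obtain ⟨s, hs, h2⟩ := h1 r le_rfl
  exact ⟨s, hs.trans hr, h2⟩

theorem Dn.imp {S T : P → Prop} {p : P} (h : Dn S p) (hST : ∀ r ≤ p, S r → Dn T r) : Dn T p :=
  fun q hq => by
    obtain ⟨r, hr, h1⟩ := h q hq
    obtain ⟨s, hs, h2⟩ := hST r (hr.trans hq) h1 r le_rfl
    exact ⟨s, hs.trans hr, h2⟩

theorem Dn.imp' {S T : P → Prop} {p : P} (h : Dn S p) (hST : ∀ r ≤ p, S r → T r) : Dn T p :=
  fun q hq => by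
    obtain ⟨r, hr, h1⟩ := h q hq
    exact ⟨r, hr, hST r (hr.trans hq) h1⟩

theorem Dn.of {S : P → Prop} {p : P} (h : ∀ q ≤ p, S q) : Dn S p :=
  fun q hq => ⟨q, le_rfl, h q hq⟩

/-- Forcing of equality. -/
def feq : Nm P → Nm P → P → Prop
  | ⟨_, A, c⟩, ⟨_, B, d⟩, p =>
    (∀ i, ∀ q ≤ p, q ∈ c i → ∃ r ≤ q, ∃ j, r ∈ d j ∧ feq (A i) (B j) r) ∧
    (∀ j, ∀ q ≤ p, q ∈ d j → ∃ r ≤ q, ∃ i, r ∈ c i ∧ feq (A i) (B j) r)

/-- Forcing of membership. -/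
def fmem (x y : Nm P) (p : P) : Prop := Dn (fun r => ∃ j, r ∈ y.c j ∧ feq x (y.A j) r) p

theorem feq_def (x y : Nm P) (p : P) : feq x y p ↔
    (∀ i, ∀ q ≤ p, q ∈ x.c i → ∃ r ≤ q, ∃ j, r ∈ y.c j ∧ feq (x.A i) (y.A j) r) ∧
    (∀ j, ∀ q ≤ p, q ∈ y.c j → ∃ r ≤ q, ∃ i, r ∈ x.c i ∧ feq (x.A i) (y.A j) r) := by
  cases x; cases y; rfl

theorem feq.mono {x y : Nm P} {p q : P} (h : feq x y p) (hq : q ≤ p) : feq x y q := by
  rw [feq_def] at h ⊢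
  exact ⟨fun i r hr => h.1 i r (hr.trans hq), fun j r hr => h.2 j r (hr.trans hq)⟩

theorem feq.refl (x : Nm P) : ∀ p, feq x x p := by
  induction x with
  | mk ι A c ih =>
    intro p
    exact ⟨fun i q _ h => ⟨q, le_rfl, i, h, ih i q⟩, fun i q _ h => ⟨q, le_rfl, i, h, ih i q⟩⟩

theorem feq.symm {x : Nm P} : ∀ {y : Nm P} {p : P}, feq x y p → feq y x p := by
  induction x with
  | mk ι A c ih =>
    rintro ⟨κ, B, d⟩ p h
    refine ⟨fun j q hq hj => ?_, fun i q hq hi => ?_⟩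
    · obtain ⟨r, hr, i, h1, h2⟩ := h.2 j q hq hj
      exact ⟨r, hr, i, h1, ih i h2⟩
    · obtain ⟨r, hr, j, h1, h2⟩ := h.1 i q hq hi
      exact ⟨r, hr, j, h1, ih i h2⟩

theorem feq.trans {x : Nm P} : ∀ {y z : Nm P} {p : P}, feq x y p → feq y z p → feq x z p := by
  induction x with
  | mk ι A c ih =>
    rintro ⟨κ, B, d⟩ ⟨μ, C, e⟩ p h h'
    refine ⟨fun i q hq hi => ?_, fun k q hq hk => ?_⟩
    · obtain ⟨r, hr, j, h1, h2⟩ := h.1 i q hq hi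
      obtain ⟨s, hs, k, h3, h4⟩ := h'.1 j r (hr.trans hq) h1
      exact ⟨s, hs.trans hr, k, h3, ih i (h2.mono hs) h4⟩
    · obtain ⟨r, hr, j, h1, h2⟩ := h'.2 k q hq hk
      obtain ⟨s, hs, i, h3, h4⟩ := h.2 j r (hr.trans hq) h1
      exact ⟨s, hs.trans hr, i, h3, ih i h4 (h2.mono hs)⟩

theorem feq_of_dn {x y : Nm P} {p : P} (h : Dn (feq x y) p) : feq x y p := by
  rw [feq_def]
  refine ⟨fun i q hq hi => ?_, fun j q hq hj => ?_⟩
  · obtain ⟨r, hr, h1⟩ := h q hq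
    obtain ⟨s, hs, h2⟩ := ((feq_def _ _ _).1 h1).1 i r le_rfl ((x.c i).lower hr hi)
    exact ⟨s, hs.trans hr, h2⟩
  · obtain ⟨r, hr, h1⟩ := h q hq
    obtain ⟨s, hs, h2⟩ := ((feq_def _ _ _).1 h1).2 j r le_rfl ((y.c j).lower hr hj)
    exact ⟨s, hs.trans hr, h2⟩

theorem fmem.mono {x y : Nm P} {p q : P} (h : fmem x y p) (hq : q ≤ p) : fmem x y q :=
  Dn.mono h hq

theorem fmem_of_dn {x y : Nm P} {p : P} (h : Dn (fmem x y) p) : fmem x y p := Dn.dn h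

theorem fmem_child (x : Nm P) (i : x.ι) {p : P} (h : p ∈ x.c i) : fmem (x.A i) x p :=
  Dn.of fun _ hq => ⟨i, (x.c i).lower hq h, feq.refl _ _⟩

theorem fmem.left {x x' y : Nm P} {p : P} (h : fmem x y p) (h' : feq x x' p) : fmem x' y p :=
  Dn.imp' h fun _ hr ⟨j, h1, h2⟩ => ⟨j, h1, (h'.mono hr).symm.trans h2⟩

theorem fmem.right {x y y' : Nm P} {p : P} (h : fmem x y p) (h' : feq y y' p) : fmem x y' p := by
  intro q hq
  obtain ⟨r, hr, j, h1, h2⟩ := h q hq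
  obtain ⟨s, hs, k, h3, h4⟩ := ((feq_def _ _ _).1 h').1 j r (hr.trans hq) h1
  exact ⟨s, hs.trans hr, k, h3, (h2.mono hs).trans h4⟩

theorem feq_of_mem {x y : Nm P} {p : P}
    (h1 : ∀ i, ∀ q ≤ p, q ∈ x.c i → fmem (x.A i) y q)
    (h2 : ∀ j, ∀ q ≤ p, q ∈ y.c j → fmem (y.A j) x q) : feq x y p := by
  rw [feq_def]
  refine ⟨fun i q hq hi => h1 i q hq hi q le_rfl, fun j q hq hj => ?_⟩
  obtain ⟨r, hr, i, h3, h4⟩ := h2 j q hq hj q le_rfl
  exact ⟨r, hr, i, h3, h4.symm⟩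

/-! ### Automorphisms -/

variable {Γ : Type} [Group Γ] [MulAction Γ P] [CovariantClass Γ P (· • ·) (· ≤ ·)]

theorem sm_le (π : Γ) {p q : P} (h : p ≤ q) : π • p ≤ π • q :=
  CovariantClass.elim (μ := (· • ·)) (r := (· ≤ ·)) π h

theorem sm_le_iff (π : Γ) {p q : P} : π • p ≤ π • q ↔ p ≤ q :=
  ⟨fun h => by simpa using sm_le π⁻¹ h, sm_le π⟩

theorem le_sm (π : Γ) {p q : P} : q ≤ π • p ↔ π⁻¹ • q ≤ p := by
  rw [← sm_le_iff π⁻¹]; simp

theorem sm_le' (π : Γ) {p q : P} : π • q ≤ p ↔ q ≤ π⁻¹ • p := by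
  rw [← sm_le_iff π⁻¹]; simp

theorem Dn.sm {S T : P → Prop} {p : P} (π : Γ) (h : Dn S p) (hST : ∀ r, S r → T (π • r)) :
    Dn T (π • p) := fun q hq => by
  obtain ⟨r, hr, h1⟩ := h _ ((le_sm π).1 hq)
  exact ⟨π • r, (sm_le' π).2 hr, hST r h1⟩

/-- Action on sets of conditions. -/
def tw (π : Γ) (s : LowerSet P) : LowerSet P :=
  ⟨{q | π⁻¹ • q ∈ s}, fun _ _ h h' => s.lower (sm_le π⁻¹ h) h'⟩

theorem mem_tw (π : Γ) (s : LowerSet P) (q : P) : q ∈ tw π s ↔ π⁻¹ • q ∈ s := Iff.rfl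

/-- Action on names. -/
def act (π : Γ) : Nm P → Nm P
  | ⟨ι, A, c⟩ => ⟨ι, fun i => act π (A i), fun i => tw π (c i)⟩

theorem act_act (π σ : Γ) (x : Nm P) : act π (act σ x) = act (π * σ) x := by
  induction x with
  | mk ι A c ih =>
    simp only [act, ih]
    congr 1
    funext i
    ext q
    change σ⁻¹ • π⁻¹ • q ∈ c i ↔ (π * σ)⁻¹ • q ∈ c i
    rw [mul_inv_rev, mul_smul]

theorem act_one (x : Nm P) : act (1 : Γ) x = x := by
  induction x with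
  | mk ι A c ih =>
    simp only [act, ih]
    congr 1
    funext i
    ext q
    change (1 : Γ)⁻¹ • q ∈ c i ↔ q ∈ c i
    simp

theorem act_inv_act (π : Γ) (x : Nm P) : act π⁻¹ (act π x) = x := by
  rw [act_act, inv_mul_cancel, act_one]

theorem act_act_inv (π : Γ) (x : Nm P) : act π (act π⁻¹ x) = x := by
  rw [act_act, mul_inv_cancel, act_one]

theorem feq.act (π : Γ) {x : Nm P} : ∀ {y : Nm P} {p : P}, feq x y p →
    feq (act π x) (act π y) (π • p) := by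
  induction x with
  | mk ι A c ih =>
    rintro ⟨κ, B, d⟩ p h
    refine ⟨fun i q hq hi => ?_, fun j q hq hj => ?_⟩
    · obtain ⟨r, hr, j, h1, h2⟩ := h.1 i _ ((le_sm π).1 hq) hi
      exact ⟨π • r, (sm_le' π).2 hr, j, by simpa [mem_tw] using h1, ih i h2⟩
    · obtain ⟨r, hr, i, h1, h2⟩ := h.2 j _ ((le_sm π).1 hq) hj
      exact ⟨π • r, (sm_le' π).2 hr, i, by simpa [mem_tw] using h1, ih i h2⟩

theorem feq_act_iff (π : Γ) {x y : Nm P} {p : P} :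
    feq (act π x) (act π y) (π • p) ↔ feq x y p :=
  ⟨fun h => by simpa [act_inv_act] using h.act π⁻¹, feq.act π⟩

theorem fmem.act (π : Γ) {x y : Nm P} {p : P} (h : fmem x y p) :
    fmem (act π x) (act π y) (π • p) := by
  obtain ⟨κ, B, d⟩ := y
  exact Dn.sm π h fun r ⟨j, h1, h2⟩ => ⟨j, by
    change π⁻¹ • π • r ∈ d j
    rw [inv_smul_smul]
    exact h1, h2.act π⟩

theorem fmem_act_iff (π : Γ) {x y : Nm P} {p : P} :
    fmem (act π x) (act π y) (π • p) ↔ fmem x y p :=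
  ⟨fun h => by simpa [act_inv_act] using h.act π⁻¹, fmem.act π⟩

/-- Base of a normal filter of subgroups. -/
structure NF (Γ : Type) [Group Γ] where
  /-- the subgroups -/
  S : Set (Subgroup Γ)
  ne : S.Nonempty
  dir : ∀ H ∈ S, ∀ K ∈ S, ∃ L ∈ S, L ≤ H ∧ L ≤ K
  conj : ∀ π : Γ, ∀ H ∈ S, ∃ K ∈ S, ∀ σ ∈ K, π⁻¹ * σ * π ∈ H

/-- `H` fixes the name `x`. -/
def Fixes (H : Subgroup Γ) (x : Nm P) : Prop := ∀ π ∈ H, ∀ p, feq (act π x) x p

theorem Fixes.mono {H K : Subgroup Γ} {x : Nm P} (h : Fixes H x) (hK : K ≤ H) : Fixes K x :=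
  fun π hπ => h π (hK hπ)

variable (F : NF Γ)

/-- Symmetric names. -/
def Symm (x : Nm P) : Prop := ∃ H ∈ F.S, Fixes H x

/-- Hereditarily symmetric names. -/
def HS : Nm P → Prop
  | ⟨ι, A, c⟩ => Symm F ⟨ι, A, c⟩ ∧ ∀ i, HS (A i)

variable {F}

theorem hs_def (x : Nm P) : HS F x ↔ Symm F x ∧ ∀ i, HS F (x.A i) := by
  cases x; rfl

theorem HS.symm {x : Nm P} (h : HS F x) : Symm F x := ((hs_def x).1 h).1

theorem HS.child {x : Nm P} (h : HS F x) (i : x.ι) : HS F (x.A i) := ((hs_def x).1 h).2 i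

theorem Symm.act {x : Nm P} (h : Symm F x) (π : Γ) : Symm F (act π x) := by
  obtain ⟨H, hH, h⟩ := h
  obtain ⟨K, hK, h1⟩ := F.conj π H hH
  refine ⟨K, hK, fun σ hσ p => ?_⟩
  have := (h _ (h1 σ hσ) (π⁻¹ • p)).act π
  rw [act_act, smul_inv_smul] at this
  rw [act_act]
  convert this using 2
  group

theorem HS.act {x : Nm P} (h : HS F x) (π : Γ) : HS F (act π x) := by
  induction x with
  | mk ι A c ih => exact ⟨h.1.act π, fun i => ih i (h.2 i)⟩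

theorem exists_fixes {n : ℕ} {v : ℕ → Nm P} (hv : ∀ i, HS F (v i)) :
    ∃ H ∈ F.S, ∀ i < n, Fixes H (v i) := by
  induction n with
  | zero =>
    obtain ⟨H, hH⟩ := F.ne
    exact ⟨H, hH, fun i hi => absurd hi (Nat.not_lt_zero i)⟩
  | succ n ih =>
    obtain ⟨H, hH, h1⟩ := ih
    obtain ⟨K, hK, h2⟩ := (hv n).symm
    obtain ⟨L, hL, h3, h4⟩ := F.dir H hH K hK
    refine ⟨L, hL, fun i hi => ?_⟩
    rcases Nat.lt_succ_iff_lt_or_eq.1 hi with h | rfl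
    · exact (h1 i h).mono h3
    · exact h2.mono h4

end Pool.Agent.H982Z.Sym
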